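import Pool.Agent.J4H46.MS.Base

set_option autoImplicit false
set_option linter.unusedSectionVars false
set_option linter.unusedVariables false

/-! # The monodromic zeta function of `h (f₀ + ∑ y_j f_j) ^ a` -/

namespace Pool.Agent.J4H46.MS

open PowerSeries Pool.Agent.W574.MO Pool.Agent.W574.RO Pool.Agent.W574.SM Pool.Agent.N103
open Pool.Agent.N103.V (Ev)
open Pool.Agent.J4H46.MQ (hom_inv_pow map_qq map_geo map_den)

open scoped Polynomial

/-- the polynomial ring over `ℤ[L, L⁻¹]` in the classes -/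
abbrev UR : Type := MvPolynomial (ℕ ⊕ (ℕ × ℂ[X])) AA

/-- the unit `L` -/
noncomputable def UL : URˣ := Units.map (MvPolynomial.C : AA →+* UR).toMonoidHom LL

theorem UL_val : (UL : UR) = MvPolynomial.C ((LL : AAˣ) : AA) := rfl

theorem UL_pow (n : ℕ) : ((UL ^ n : URˣ) : UR) = MvPolynomial.C (((LL ^ n : AAˣ)) : AA) := by
  rw [Units.val_pow_eq_pow_val, Units.val_pow_eq_pow_val, map_pow]
  rfl

theorem UL_ne (k l : ℕ) (h : k ≠ l) : ((UL ^ k : URˣ) : UR) - ((UL ^ l : URˣ) : UR) ≠ 0 := by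
  rw [UL_pow, UL_pow, ← map_sub]
  intro h1
  exact LL_pow_ne h (MvPolynomial.C_injective _ _ (by rw [h1, map_zero]))

theorem UL_sub_one : (UL : UR) - 1 ≠ 0 := by
  have := UL_ne 1 0 (by decide)
  rwa [pow_one, pow_zero, Units.val_one] at this

/-- the classes of the powers -/
noncomputable def up (g : ℕ) : UR := if g = 1 then 1 else MvPolynomial.X (Sum.inl g)

open Classical in
/-- the classes of the curves -/
noncomputable def uc (n : ℕ) (P : ℂ[X]) : UR :=
  if 1 ≤ n ∧ P ≠ 0 ∧ (spec n P).card ≤ 2 then ((UL : UR) + 1) * up (gmul n P)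
    else MvPolynomial.X (Sum.inr (n, P))

section Maps

variable {R M : Type} [CommRing R] [CommRing M] (ψ : R →+* M) {LR : Rˣ} {L : Mˣ}

theorem map_qf (hL : ψ (LR : R) = L) (a n : ℕ) :
    PowerSeries.map ψ (qf LR a n) = qf L a n := by
  rw [qf, qf]
  split_ifs with h
  · exact map_one _
  · rw [map_mul, map_qq ψ hL, map_geo ψ hL (Nat.one_le_iff_ne_zero.2 h)]

theorem map_lfM (hL : ψ (LR : R) = L) (a x n y m : ℕ) (t : Bool) :
    PowerSeries.map ψ (lfM LR a x n y m t) = lfM L a x n y m t := by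
  rw [lfM, lfM, map_mul, map_mul, map_mul, PowerSeries.map_C, map_qf ψ hL, map_qf ψ hL, map_pow,
    map_sub, map_one, hL]
  congr 2
  rcases t with _ | _
  · exact map_one _
  · exact map_qf ψ hL a 1

theorem map_gtr (f : R⟦X⟧) : PowerSeries.map ψ (gtr f) = gtr (PowerSeries.map ψ f) := by
  ext m
  rw [coeff_map, gtr, gtr, coeff_mk, coeff_mk, map_sub, map_one, map_sum]
  simp only [coeff_map]

end Maps

section Univ

variable {M E : Type} [CommRing M] [CommRing E] [Algebra M E] {L : Mˣ} (S : MonSys M E L)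

/-- the homomorphism to `E` -/
noncomputable def psi : UR →+* E :=
  MvPolynomial.eval₂Hom ((algebraMap M E).comp (phi L)) (Sum.elim S.pc fun q => S.cl q.1 q.2)

theorem psi_C (x : AA) : psi S (MvPolynomial.C x) = algebraMap M E (phi L x) :=
  MvPolynomial.eval₂Hom_C _ _ _

theorem psi_UL : psi S (UL : UR) = (LE L : Eˣ) := by
  rw [UL_val, psi_C, phi_LL, LE_one]

theorem psi_up (g : ℕ) : psi S (up g) = S.pc g := by
  rw [up]
  split_ifs with h
  · rw [map_one, h, S.pc_one]
  · exact MvPolynomial.eval₂Hom_X' _ _ _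

theorem psi_uc (n : ℕ) (P : ℂ[X]) : psi S (uc n P) = S.cl n P := by
  rw [uc]
  split_ifs with h
  · rw [map_mul, map_add, map_one, psi_UL, psi_up, S.cl_two n P h.1 h.2.1 h.2.2, map_add, map_one,
      LE_one]
  · exact MvPolynomial.eval₂Hom_X' _ _ _

variable {S}
variable {κ : Type} [Fintype κ] [DecidableEq κ]
variable {h : MP} {f : Option κ → MP} {a : ℕ} {c : κ → ℂ} {Pt : Fin 2 → ℂ}

theorem tot_one : S.tot 1 = (L : M) - 1 := by
  rw [← S.pc_one]
  exact S.tot_pc 1 le_rfl

/-- **The monodromic zeta function of `h (f₀ + ∑ y_j f_j) ^ a`**. -/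
theorem base_case (hF : FF h f a ≠ 0) (ha : 1 ≤ a) {Z : E⟦X⟧}
    (hZ : GermW (lfK (LE L) a S.pc) (edK (LE L) a S.pc S.cl) a (translate Pt h)
      (fun j => translate Pt (fc c f j)) 0 1 0 1 Z) :
    ∃ (R : E⟦X⟧) (ρ : M⟦X⟧), Z = R + PowerSeries.map (algebraMap M E) ρ ∧
      R ∈ DenRing (LE L) (KE (FF h f a) (Sum.elim Pt c)) ∧
      (1 - qq L 1 1) * ρ ∈ DenRing L (KE (FF h f a) (Sum.elim Pt c)) ∧
      gtr (cm S.tot Z) - ρ ∈ DenRing L (KE (FF h f a) (Sum.elim Pt c)) := by
  obtain ⟨ρ0, h1⟩ := germw_lift (lfK LL a (fun _ => 1))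
    (edK LL a (fun _ => 1) (fun _ _ => ((LL : AAˣ) : AA) + 1)) hZ
  obtain ⟨Y0, h2⟩ := germw_lift (lfK UL a (fun g => up g - 1))
    (edK UL a (fun g => up g - 1) (fun n P => uc n P - ((UL : UR) + 1))) h1
  have hρ : GermW (lfK LL a (fun _ => 1)) (edK LL a (fun _ => 1) (fun _ _ => ((LL : AAˣ) : AA) + 1))
      a (translate Pt h) (fun j => translate Pt (fc c f j)) 0 1 0 1 ρ0 :=
    germw_map ((AddMonoidHom.snd _ _).comp (AddMonoidHom.fst _ _)) (fun _ _ _ _ _ _ => rfl)
      (fun _ _ _ _ _ _ _ => rfl) h2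
  have hY : GermW (lfK UL a (fun g => up g - 1))
      (edK UL a (fun g => up g - 1) (fun n P => uc n P - ((UL : UR) + 1)))
      a (translate Pt h) (fun j => translate Pt (fc c f j)) 0 1 0 1 Y0 :=
    germw_map (AddMonoidHom.snd _ _) (fun _ _ _ _ _ _ => rfl) (fun _ _ _ _ _ _ _ => rfl) h2
  have hψ := psi_UL S
  have hφ : phi L ((LL : AAˣ) : AA) = L := phi_LL L
  have hι : algebraMap M E (L : M) = (LE L : Eˣ) := rfl
  -- the relation
  have hrel : Z = PowerSeries.map (psi S) Y0
      + PowerSeries.map (algebraMap M E) (PowerSeries.map (phi L) ρ0) := by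
    have h3 := germw_rel (R' := E⟦X⟧) ((AddMonoidHom.fst _ _).comp (AddMonoidHom.fst _ _)
      - (((PowerSeries.map (algebraMap M E)).comp
        (PowerSeries.map (phi L))).toAddMonoidHom.comp
          ((AddMonoidHom.snd _ _).comp (AddMonoidHom.fst _ _)))
      - ((PowerSeries.map (psi S)).toAddMonoidHom.comp (AddMonoidHom.snd _ _))) ?_ ?_ h2
    · have h4 : Z - PowerSeries.map (algebraMap M E) (PowerSeries.map (phi L) ρ0)
          - PowerSeries.map (psi S) Y0 = 0 := h3
      linear_combination h4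
    · intro x n y m t _
      show lfK (LE L) a S.pc x n y m t - PowerSeries.map (algebraMap M E)
        (PowerSeries.map (phi L) (lfK LL a (fun _ => 1) x n y m t))
        - PowerSeries.map (psi S) (lfK UL a (fun g => up g - 1) x n y m t) = 0
      rw [lfK, lfK, lfK, map_mul, map_mul, map_mul, map_lfM _ hφ, map_lfM _ hι, map_lfM _ hψ,
        PowerSeries.map_C, PowerSeries.map_C, PowerSeries.map_C, map_sub, map_one, map_one,
        psi_up, map_one, map_sub, map_one]
      simp only [map_one]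
      ring
    · intro N ν t P S' _ _
      show edK (LE L) a S.pc S.cl N ν t P S' - PowerSeries.map (algebraMap M E)
        (PowerSeries.map (phi L) (edK LL a (fun _ => 1) (fun _ _ => ((LL : AAˣ) : AA) + 1)
          N ν t P S'))
        - PowerSeries.map (psi S) (edK UL a (fun g => up g - 1)
          (fun n P => uc n P - ((UL : UR) + 1)) N ν t P S') = 0
      rw [edK, edK, edK, map_mul, map_mul, map_mul, map_lfM _ hφ, map_lfM _ hι, map_lfM _ hψ,
        PowerSeries.map_C, PowerSeries.map_C, PowerSeries.map_C, ← sub_mul, ← sub_mul,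
        ← map_sub, ← map_sub]
      have e1 : S.cl (N.gcd (ta a t)) P
          - ∑ z ∈ S', S.pc ((N.gcd (ta a t)).gcd (Polynomial.rootMultiplicity z P))
          - S.pc ((N.gcd (ta a t)).gcd P.natDegree)
          - algebraMap M E (phi L (((LL : AAˣ) : AA) + 1 - ∑ z ∈ S', (1 : AA) - 1))
          - psi S (uc (N.gcd (ta a t)) P - ((UL : UR) + 1)
            - ∑ z ∈ S', (up ((N.gcd (ta a t)).gcd (Polynomial.rootMultiplicity z P)) - 1)
            - (up ((N.gcd (ta a t)).gcd P.natDegree) - 1)) = 0 := by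
        simp only [map_sub, map_add, map_one, map_sum, psi_up, psi_uc, psi_UL, hφ, hι,
          Finset.sum_sub_distrib]
        ring
      rw [e1, map_zero, zero_mul]
  -- the total space
  have htot : cm S.tot (PowerSeries.map (psi S) Y0) = 0 := by
    refine germw_rel (R' := M⟦X⟧) ((cmH S.tot).comp (PowerSeries.map (psi S)).toAddMonoidHom)
      ?_ ?_ hY
    · intro x n y m t hxy
      show cm S.tot (PowerSeries.map (psi S) (lfK UL a (fun g => up g - 1) x n y m t)) = 0
      have hg : 1 ≤ Nat.gcd (Nat.gcd x y) (ta a t) := by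
        rcases hxy with h | h | h
        · exact Nat.gcd_pos_of_pos_left _ (Nat.gcd_pos_of_pos_left _ (Nat.pos_of_ne_zero h))
        · exact Nat.gcd_pos_of_pos_left _ (Nat.gcd_pos_of_pos_right _ (Nat.pos_of_ne_zero h))
        · rw [h]
          exact Nat.gcd_pos_of_pos_right _ ha
      rw [lfK, map_mul, map_lfM _ hψ, PowerSeries.map_C, ← map_lfM _ hι, cm_C_mul, map_sub,
        map_one, psi_up, map_sub, tot_one, S.tot_pc _ hg, sub_self, map_zero, zero_mul]
    · intro N ν t P S' hN hP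
      show cm S.tot (PowerSeries.map (psi S) (edK UL a (fun g => up g - 1)
          (fun n P => uc n P - ((UL : UR) + 1)) N ν t P S')) = 0
      have hn : 1 ≤ Nat.gcd N (ta a t) := Nat.gcd_pos_of_pos_left _ hN
      have hg : ∀ x, 1 ≤ Nat.gcd (Nat.gcd N (ta a t)) x := fun x => Nat.gcd_pos_of_pos_left _ hn
      rw [edK, map_mul, map_lfM _ hψ, PowerSeries.map_C, ← map_lfM _ hι, cm_C_mul]
      have e1 : S.tot (psi S (uc (N.gcd (ta a t)) P - ((UL : UR) + 1)
            - ∑ z ∈ S', (up ((N.gcd (ta a t)).gcd (Polynomial.rootMultiplicity z P)) - 1)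
            - (up ((N.gcd (ta a t)).gcd P.natDegree) - 1))) = 0 := by
        simp only [map_sub, map_add, map_one, map_sum, psi_up, psi_uc, psi_UL,
          Finset.sum_sub_distrib, tot_one]
        rw [S.tot_cl _ _ hn hP, S.tot_pc _ (hg _), Finset.sum_congr rfl fun z _ => S.tot_pc _ (hg _)]
        have e2 : S.tot ((LE L : Eˣ) : E) = (L : M) * ((L : M) - 1) := by
          rw [LE_one, Algebra.algebraMap_eq_smul_one, map_smul, tot_one, smul_eq_mul]
        rw [e2, Finset.sum_sub_distrib]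
        ring
      rw [e1, map_zero, zero_mul]
  have ht : cm S.tot Z = C ((L : M) - 1) * PowerSeries.map (phi L) ρ0 := by
    rw [hrel, cm_add, htot, zero_add, cm_map, tot_one]
    congr 1
  obtain ⟨hr1, hr2⟩ := rho_mem hF ha hρ
  refine ⟨_, _, hrel, ?_, ?_, ?_⟩
  · refine map_den _ hψ (descE UL_ne (allK _ _ hY le_rfl le_rfl) fun H s hH hE => ?_)
    refine regK hF ha UL_sub_one _ _ ?_ ?_ hH hE hY
    · intro n P hn hP hsp
      rw [uc, if_pos ⟨hn, hP, hsp⟩]
      ring
    · rw [up, if_pos rfl, sub_self]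
  · have h5 := map_den _ hφ hr1
    rwa [map_mul, map_sub, map_one, map_qq _ hφ] at h5
  · have h5 := map_den _ hφ hr2
    rwa [map_sub, map_gtr, map_mul, PowerSeries.map_C, map_sub, map_one, hφ, ← ht] at h5

end Univ

end Pool.Agent.J4H46.MS
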