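import Pool.Agent.J4H46.MS.SDefs
import Pool.Agent.W574.RO.Had

set_option autoImplicit false
set_option linter.unusedSectionVars false
set_option linter.unusedVariables false

/-! # The operators on power series and the denominators -/

namespace Pool.Agent.J4H46.MS

open PowerSeries Pool.Agent.W574.MO Pool.Agent.W574.RO

section Pol

variable {A B : Type} [CommRing A] [CommRing B]

theorem mem_of_isPol {L : Aˣ} {K : ℕ → ℕ → Prop} {f : A⟦X⟧} (h : IsPol f) : f ∈ DenRing L K := by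
  obtain ⟨P, rfl⟩ := exists_coe h
  exact Subring.subset_closure (Or.inl ⟨P, rfl⟩)

theorem qq_pow (L : Aˣ) (a n d : ℕ) : qq L a n ^ d = qq L (d * a) (d * n) := by
  rw [qq, qq, mul_pow, ← pow_mul, ← map_pow, ← Units.val_pow_eq_pow_val, ← pow_mul, mul_comm a,
    mul_comm n]

theorem coeff_qq_mul (L : Aˣ) (a n : ℕ) (f : A⟦X⟧) (m : ℕ) : coeff m (qq L a n * f)
    = if a ≤ m then ((L⁻¹ ^ n : Aˣ) : A) * coeff (m - a) f else 0 := by
  rw [qq, mul_assoc, coeff_C_mul, coeff_X_pow_mul']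
  split_ifs
  · rfl
  · rw [mul_zero]

/-- operators which change the denominators -/
theorem op_mem {LA : Aˣ} {LB : Bˣ} {K K' : ℕ → ℕ → Prop} (d : ℕ) (hd : 1 ≤ d)
    (Op : A⟦X⟧ → B⟦X⟧) (hsub : ∀ f g, Op (f - g) = Op f - Op g)
    (hpol : ∀ f, IsPol f → IsPol (Op f)) (al be : ℕ → ℕ → ℕ)
    (hal : ∀ a n, 1 ≤ a → 1 ≤ n → 1 ≤ al a n) (hbe : ∀ a n, 1 ≤ a → 1 ≤ n → 1 ≤ be a n)
    (hq : ∀ a n f, 1 ≤ a → 1 ≤ n →
      Op (qq LA (d * a) (d * n) * f) = qq LB (al a n) (be a n) * Op f)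
    (hK : ∀ a n, 1 ≤ a → 1 ≤ n → K a n → K' (al a n) (be a n)) {f : A⟦X⟧}
    (hf : f ∈ DenRing LA K) : Op f ∈ DenRing LB K' := by
  obtain ⟨s, hs, hp⟩ := exists_dp hf
  clear hf
  induction s using Multiset.induction_on generalizing f with
  | empty =>
    rw [dp, Multiset.map_zero, Multiset.prod_zero, one_mul] at hp
    exact mem_of_isPol (hpol f hp)
  | cons p s ih =>
    obtain ⟨a, n⟩ := p
    obtain ⟨ha, hn, hk⟩ := hs (a, n) (Multiset.mem_cons_self _ _)
    have h1 : Op ((1 - qq LA (d * a) (d * n)) * f) ∈ DenRing LB K' := by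
      refine ih (fun q hq => hs q (Multiset.mem_cons_of_mem hq)) ?_
      have h2 : (1 - qq LA (d * a) (d * n) : A⟦X⟧)
          = (1 - qq LA a n) * ∑ i ∈ Finset.range d, qq LA a n ^ i := by
        rw [mul_neg_geom_sum, qq_pow]
      have h3 : dp LA s * ((1 - qq LA (d * a) (d * n)) * f)
          = (∑ i ∈ Finset.range d, qq LA a n ^ i) * (dp LA ((a, n) ::ₘ s) * f) := by
        rw [h2, dp_cons]
        ring
      rw [h3]
      refine IsPol.mul ?_ hp
      have h4 : ∀ i, IsPol (qq LA a n ^ i) := fun i =>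
        ((isPol_C _).mul (isPol_X.pow a)).pow i
      induction d with
      | zero =>
        rw [Finset.range_zero, Finset.sum_empty]
        exact ⟨0, by simp⟩
      | succ d _ =>
        clear h2 h3 hq hd ih
        induction (d + 1) with
        | zero =>
          rw [Finset.range_zero, Finset.sum_empty]
          exact ⟨0, by simp⟩
        | succ k ih2 =>
          rw [Finset.sum_range_succ]
          exact ih2.add (h4 k)
    have h5 : (1 - qq LB (al a n) (be a n)) * Op f = Op ((1 - qq LA (d * a) (d * n)) * f) := by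
      have h7 : (1 - qq LA (d * a) (d * n)) * f = f - qq LA (d * a) (d * n) * f := by ring
      rw [h7, hsub, hq a n f ha hn]
      ring
    have h6 : Op f = geo LB (al a n) (be a n) * Op ((1 - qq LA (d * a) (d * n)) * f) := by
      rw [← h5]
      linear_combination (-Op f) * geo_mul LB (hal a n ha hn) (be a n)
    rw [h6]
    exact Subring.mul_mem _ (geo_mem (hal a n ha hn) (hbe a n ha hn) (hK a n ha hn hk)) h1

end Pol

section Ops

variable {M : Type} [CommRing M] (L : Mˣ) (d : ℕ)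

theorem coeff_th (f : M⟦X⟧) (m : ℕ) :
    coeff m (th L d f) = ((L⁻¹ ^ (m / d) : Mˣ) : M) * coeff m f := coeff_mk _ _

theorem coeff_sc (j : ℕ) (f : M⟦X⟧) (m : ℕ) : coeff m (sc L d j f)
    = if m % d = j then ((L⁻¹ ^ (m / d) : Mˣ) : M) * coeff m f else 0 := coeff_mk _ _

theorem th_add (f g : M⟦X⟧) : th L d (f + g) = th L d f + th L d g := by
  ext m
  rw [map_add, coeff_th, coeff_th, coeff_th, map_add]
  ring

theorem th_sub (f g : M⟦X⟧) : th L d (f - g) = th L d f - th L d g := by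
  ext m
  rw [map_sub, coeff_th, coeff_th, coeff_th, map_sub]
  ring

theorem sc_add (j : ℕ) (f g : M⟦X⟧) : sc L d j (f + g) = sc L d j f + sc L d j g := by
  ext m
  rw [map_add, coeff_sc, coeff_sc, coeff_sc, map_add]
  split_ifs
  · ring
  · ring

theorem sc_sub (j : ℕ) (f g : M⟦X⟧) : sc L d j (f - g) = sc L d j f - sc L d j g := by
  ext m
  rw [map_sub, coeff_sc, coeff_sc, coeff_sc, map_sub]
  split_ifs
  · ring
  · ring

theorem th_pol (f : M⟦X⟧) (h : IsPol f) : IsPol (th L d f) := by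
  obtain ⟨N, hN⟩ := h
  exact ⟨N, fun e he => by rw [coeff_th, hN e he, mul_zero]⟩

theorem sc_pol (j : ℕ) (f : M⟦X⟧) (h : IsPol f) : IsPol (sc L d j f) := by
  obtain ⟨N, hN⟩ := h
  refine ⟨N, fun e he => ?_⟩
  rw [coeff_sc, hN e he, mul_zero]
  split_ifs <;> rfl

theorem th_one : th L d (1 : M⟦X⟧) = 1 := by
  ext m
  rw [coeff_th, coeff_one]
  by_cases h : m = 0
  · subst h
    simp
  · rw [if_neg h, mul_zero]

theorem sc_one (hd : 1 ≤ d) : sc L d 0 (1 : M⟦X⟧) = 1 := by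
  ext m
  rw [coeff_sc, coeff_one]
  by_cases h : m = 0
  · subst h
    simp
  · rw [if_neg h, mul_zero]
    split_ifs <;> rfl

variable {d}

theorem th_qq (hd : 1 ≤ d) (a n : ℕ) (f : M⟦X⟧) :
    th L d (qq L (d * a) (d * n) * f) = qq L (d * a) (d * n + a) * th L d f := by
  ext m
  rw [coeff_th, coeff_qq_mul, coeff_qq_mul, coeff_th]
  split_ifs with h
  · obtain ⟨k, rfl⟩ := Nat.exists_eq_add_of_le h
    rw [Nat.add_sub_cancel_left, Nat.mul_add_div (by omega), pow_add, pow_add, Units.val_mul,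
      Units.val_mul]
    ring
  · rw [mul_zero]

theorem sc_qq (hd : 1 ≤ d) (j a n : ℕ) (f : M⟦X⟧) :
    sc L d j (qq L (d * a) (d * n) * f) = qq L (d * a) (d * n + a) * sc L d j f := by
  ext m
  rw [coeff_sc, coeff_qq_mul, coeff_qq_mul, coeff_sc]
  by_cases h : d * a ≤ m
  · rw [if_pos h, if_pos h]
    obtain ⟨k, rfl⟩ := Nat.exists_eq_add_of_le h
    rw [Nat.add_sub_cancel_left, Nat.mul_add_mod, Nat.mul_add_div (by omega)]
    split_ifs
    · rw [pow_add, pow_add, Units.val_mul, Units.val_mul]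
      ring
    · rw [mul_zero]
  · rw [if_neg h, if_neg h, mul_zero]
    split_ifs <;> rfl

variable {L} {K K' : ℕ → ℕ → Prop}

theorem th_mem (hd : 1 ≤ d) (hK : ∀ a n, 1 ≤ a → 1 ≤ n → K a n → K' (d * a) (d * n + a))
    {f : M⟦X⟧} (hf : f ∈ DenRing L K) : th L d f ∈ DenRing L K' :=
  op_mem d hd (th L d) (th_sub L d) (th_pol L d) (fun a _ => d * a) (fun a n => d * n + a)
    (fun a n ha _ => Nat.mul_pos hd ha) (fun a n ha _ => by omega)
    (fun a n f _ _ => th_qq L hd a n f) hK hf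

theorem sc_mem (hd : 1 ≤ d) (j : ℕ)
    (hK : ∀ a n, 1 ≤ a → 1 ≤ n → K a n → K' (d * a) (d * n + a))
    {f : M⟦X⟧} (hf : f ∈ DenRing L K) : sc L d j f ∈ DenRing L K' :=
  op_mem d hd (sc L d j) (sc_sub L d j) (sc_pol L d j) (fun a _ => d * a) (fun a n => d * n + a)
    (fun a n ha _ => Nat.mul_pos hd ha) (fun a n ha _ => by omega)
    (fun a n f _ _ => sc_qq L hd j a n f) hK hf

variable (L)

/-- the operators and the multiplication by `T` -/
theorem th_X (hd : 1 ≤ d) (f : M⟦X⟧) : th L d (X * f)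
    = X * th L d f - C (1 - ((L⁻¹ : Mˣ) : M)) * (X * sc L d (d - 1) f) := by
  ext m
  rw [map_sub, coeff_C_mul, coeff_th]
  rcases m with _ | m
  · simp
  · rw [coeff_succ_X_mul, coeff_succ_X_mul, coeff_succ_X_mul, coeff_th, coeff_sc]
    by_cases h : m % d = d - 1
    · have h1 : (m + 1) / d = m / d + 1 := by
        have h2 := Nat.div_add_mod m d
        rw [h] at h2
        have h3 : m + 1 = d * (m / d + 1) := by
          rw [Nat.mul_add, mul_one]
          omega
        conv_lhs => rw [h3]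
        exact Nat.mul_div_cancel_left _ hd
      rw [if_pos h, h1, pow_succ, Units.val_mul]
      ring
    · have h1 : (m + 1) / d = m / d := by
        rw [Nat.succ_div_of_not_dvd]
        intro h2
        apply h
        obtain ⟨k, hk⟩ := h2
        obtain ⟨j, rfl⟩ : ∃ j, k = j + 1 := ⟨k - 1, by
          rcases k with _ | k
          · simp at hk
          · omega⟩
        have h3 : m = d * j + (d - 1) := by
          rw [Nat.mul_add, mul_one] at hk
          omega
        rw [h3, Nat.mul_add_mod, Nat.mod_eq_of_lt (by omega)]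
      rw [if_neg h, h1]
      ring

theorem sc_X (hd : 1 ≤ d) (f : M⟦X⟧) : sc L d 0 (X * f)
    = C ((L⁻¹ : Mˣ) : M) * (X * sc L d (d - 1) f) := by
  ext m
  rw [coeff_C_mul, coeff_sc]
  rcases m with _ | m
  · simp
  · rw [coeff_succ_X_mul, coeff_succ_X_mul, coeff_sc]
    by_cases h : m % d = d - 1
    · have h2 := Nat.div_add_mod m d
      rw [h] at h2
      have h3 : m + 1 = d * (m / d + 1) := by
        rw [Nat.mul_add, mul_one]
        omega
      have h1 : (m + 1) / d = m / d + 1 := by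
        conv_lhs => rw [h3]
        exact Nat.mul_div_cancel_left _ hd
      have h4 : (m + 1) % d = 0 := by
        rw [h3]
        exact Nat.mul_mod_right _ _
      rw [if_pos h, if_pos h4, h1, pow_succ, Units.val_mul]
      ring
    · have h4 : ¬ (m + 1) % d = 0 := by
        intro h5
        apply h
        obtain ⟨k, hk⟩ := Nat.dvd_of_mod_eq_zero h5
        obtain ⟨j, rfl⟩ : ∃ j, k = j + 1 := ⟨k - 1, by
          rcases k with _ | k
          · simp at hk
          · omega⟩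
        have h3 : m = d * j + (d - 1) := by
          rw [Nat.mul_add, mul_one] at hk
          omega
        rw [h3, Nat.mul_add_mod, Nat.mod_eq_of_lt (by omega)]
      rw [if_neg h, if_neg h4, mul_zero]

theorem gtr_eq (Z : M⟦X⟧) : (1 - X) * gtr Z = 1 - Z := by
  ext e
  rw [sub_mul, one_mul, map_sub, map_sub, gtr, coeff_mk]
  rcases e with _ | e
  · rw [coeff_zero_X_mul, Finset.sum_range_one, sub_zero, coeff_one, if_pos rfl]
  · rw [coeff_succ_X_mul, coeff_mk, Finset.sum_range_succ, coeff_one,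
      if_neg (Nat.succ_ne_zero e)]
    ring

end Ops

section Lin

variable {M A B D : Type} [CommRing M] [CommRing A] [CommRing B] [Algebra M A] [Algebra M B]
  [CommRing D] [Algebra M D]

theorem coeff_cm (φ : A →ₗ[M] B) (f : A⟦X⟧) (m : ℕ) : coeff m (cm φ f) = φ (coeff m f) :=
  coeff_mk _ _

theorem cm_add (φ : A →ₗ[M] B) (f g : A⟦X⟧) : cm φ (f + g) = cm φ f + cm φ g := by
  ext m
  rw [map_add, coeff_cm, coeff_cm, coeff_cm, map_add, map_add]

theorem cm_sub (φ : A →ₗ[M] B) (f g : A⟦X⟧) : cm φ (f - g) = cm φ f - cm φ g := by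
  ext m
  rw [map_sub, coeff_cm, coeff_cm, coeff_cm, map_sub, map_sub]

theorem cm_zero (φ : A →ₗ[M] B) : cm φ (0 : A⟦X⟧) = 0 := by
  ext m
  rw [coeff_cm, map_zero, map_zero, map_zero]

/-- `cm` as a homomorphism of groups -/
noncomputable def cmH (φ : A →ₗ[M] B) : A⟦X⟧ →+ B⟦X⟧ where
  toFun := cm φ
  map_zero' := cm_zero φ
  map_add' := cm_add φ

theorem LE_val (L : Mˣ) (n : ℕ) : (((LE L : Aˣ) ^ n : Aˣ) : A)
    = algebraMap M A ((L ^ n : Mˣ) : M) := by
  rw [LE, ← map_pow]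
  rfl

theorem LE_inv (L : Mˣ) (n : ℕ) : (((LE L : Aˣ)⁻¹ ^ n : Aˣ) : A)
    = algebraMap M A ((L⁻¹ ^ n : Mˣ) : M) := by
  rw [LE, ← map_inv, ← map_pow]
  rfl

theorem LE_one (L : Mˣ) : ((LE L : Aˣ) : A) = algebraMap M A (L : M) := rfl

/-- multiplication by series over `M` -/
theorem cm_mul (φ : A →ₗ[M] B) (u : M⟦X⟧) (f : A⟦X⟧) :
    cm φ (PowerSeries.map (algebraMap M A) u * f)
      = PowerSeries.map (algebraMap M B) u * cm φ f := by
  ext m
  rw [coeff_cm, coeff_mul, coeff_mul, map_sum]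
  refine Finset.sum_congr rfl fun p _ => ?_
  rw [coeff_map, coeff_map, coeff_cm, ← Algebra.smul_def, map_smul, Algebra.smul_def]

theorem cm_C_mul (φ : A →ₗ[M] B) (c : A) (u : M⟦X⟧) :
    cm φ (C c * PowerSeries.map (algebraMap M A) u)
      = C (φ c) * PowerSeries.map (algebraMap M B) u := by
  rw [mul_comm, cm_mul, mul_comm]
  congr 1
  ext m
  rw [coeff_cm, coeff_C, coeff_C]
  split_ifs
  · rfl
  · exact map_zero _

theorem cm_map (φ : A →ₗ[M] B) (u : M⟦X⟧) :
    cm φ (PowerSeries.map (algebraMap M A) u) = C (φ 1) * PowerSeries.map (algebraMap M B) u := by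
  have := cm_C_mul φ 1 u
  rwa [map_one, one_mul] at this

theorem cm_th (φ : A →ₗ[M] B) (L : Mˣ) (d : ℕ) (f : A⟦X⟧) :
    cm φ (th (LE L) d f) = th (LE L) d (cm φ f) := by
  ext m
  rw [coeff_cm, coeff_th, coeff_th, coeff_cm, LE_inv, LE_inv, ← Algebra.smul_def, map_smul,
    Algebra.smul_def]

theorem cm_sc (φ : A →ₗ[M] B) (L : Mˣ) (d j : ℕ) (f : A⟦X⟧) :
    cm φ (sc (LE L) d j f) = sc (LE L) d j (cm φ f) := by
  ext m
  rw [coeff_cm, coeff_sc, coeff_sc, coeff_cm]
  split_ifs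
  · rw [LE_inv, LE_inv, ← Algebra.smul_def, map_smul, Algebra.smul_def]
  · exact map_zero _

theorem map_th (L : Mˣ) (d : ℕ) (f : M⟦X⟧) : PowerSeries.map (algebraMap M A) (th L d f)
    = th (LE L) d (PowerSeries.map (algebraMap M A) f) := by
  ext m
  rw [coeff_map, coeff_th, coeff_th, coeff_map, LE_inv, map_mul]

theorem map_sc (L : Mˣ) (d j : ℕ) (f : M⟦X⟧) : PowerSeries.map (algebraMap M A) (sc L d j f)
    = sc (LE L) d j (PowerSeries.map (algebraMap M A) f) := by
  ext m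
  rw [coeff_map, coeff_sc, coeff_sc, coeff_map]
  split_ifs
  · rw [LE_inv, map_mul]
  · exact map_zero _

theorem LE_self (L : Mˣ) : (LE L : Mˣ) = L := by
  ext
  rfl

theorem cm_pol (φ : A →ₗ[M] B) (f : A⟦X⟧) (h : IsPol f) : IsPol (cm φ f) := by
  obtain ⟨N, hN⟩ := h
  exact ⟨N, fun e he => by rw [coeff_cm, hN e he, map_zero]⟩

theorem cm_qq (φ : A →ₗ[M] B) (L : Mˣ) (a n : ℕ) (f : A⟦X⟧) :
    cm φ (qq (LE L) a n * f) = qq (LE L) a n * cm φ f := by
  ext m
  rw [coeff_cm, coeff_qq_mul, coeff_qq_mul, coeff_cm]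
  split_ifs
  · rw [LE_inv, LE_inv, ← Algebra.smul_def, map_smul, Algebra.smul_def]
  · exact map_zero _

theorem cm_mem (φ : A →ₗ[M] B) {L : Mˣ} {K : ℕ → ℕ → Prop} {f : A⟦X⟧}
    (hf : f ∈ DenRing (LE L) K) : cm φ f ∈ DenRing (LE L) K :=
  op_mem 1 le_rfl (cm φ) (cm_sub φ) (cm_pol φ) (fun a _ => a) (fun _ n => n)
    (fun _ _ ha _ => ha) (fun _ _ _ hn => hn)
    (fun a n f _ _ => by rw [one_mul, one_mul]; exact cm_qq φ L a n f)
    (fun _ _ _ _ h => h) hf

theorem cm_mem' (φ : A →ₗ[M] M) {L : Mˣ} {K : ℕ → ℕ → Prop} {f : A⟦X⟧}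
    (hf : f ∈ DenRing (LE L) K) : cm φ f ∈ DenRing L K := by
  have := cm_mem φ hf
  rwa [LE_self] at this

end Lin

end Pool.Agent.J4H46.MS
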