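import Pool.Agent.J4H46.MS.EdgeM

set_option autoImplicit false
set_option linter.unusedSectionVars false
set_option linter.unusedVariables false

/-! # Contributions of points: functoriality -/

namespace Pool.Agent.J4H46.MS

open Pool.Agent.W574.SM Pool.Agent.N103

open Polynomial

section Germ

variable {κ R R' : Type}

/-- change of the contributions -/
theorem germw_map [AddCommMonoid R] [AddCommMonoid R'] [Fintype κ] [DecidableEq κ] (φ : R →+ R')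
    {lf : ℕ → ℕ → ℕ → ℕ → Bool → R} {ed : ℕ → ℕ → Bool → ℂ[X] → Finset ℂ → R}
    {lf' : ℕ → ℕ → ℕ → ℕ → Bool → R'} {ed' : ℕ → ℕ → Bool → ℂ[X] → Finset ℂ → R'}
    (h1 : ∀ x n y m t, (x ≠ 0 ∨ y ≠ 0 ∨ t = true) → φ (lf x n y m t) = lf' x n y m t)
    (h2 : ∀ N ν t P S, 1 ≤ N → P ≠ 0 → φ (ed N ν t P S) = ed' N ν t P S)
    {a : ℕ} {h : MP} {g : Option κ → MP} {a0 n0 a1 n1 : ℕ} {Z : R}
    (hZ : GermW lf ed a h g a0 n0 a1 n1 Z) : GermW lf' ed' a h g a0 n0 a1 n1 (φ Z) := by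
  classical
  induction hZ with
  | unit h g a0 n0 a1 n1 hh t ht hI =>
    rw [h1 _ _ _ _ _ hI]
    exact GermW.unit h g a0 n0 a1 n1 hh t ht hI
  | curveV h g a0 n0 mh mg hm q kh k hh hg h0 h3 hkh t ht =>
    rw [h1 _ _ _ _ _ (Or.inr (Or.inl (by omega)))]
    exact GermW.curveV h g a0 n0 mh mg hm q kh k hh hg h0 h3 hkh t ht
  | curveU h g a1 n1 mh mg hm q kh k hh hg h0 h3 hkh t ht =>
    rw [h1 _ _ _ _ _ (Or.inr (Or.inl (by omega)))]
    exact GermW.curveU h g a1 n1 mh mg hm q kh k hh hg h0 h3 hkh t ht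
  | blowup h g a0 n0 a1 n1 mh mg hm hc gc hI gI hhc hgc hhI hgI S h0S t hS Zc ZI hz0 hcS hZI
      ih0 ihc ihI =>
    rw [map_add, map_add, map_sum,
      h2 _ _ _ _ _ (by omega) (edge_facts (a := a) (a1 := a1) hhc hgc S h0S t hS).1]
    exact GermW.blowup h g a0 n0 a1 n1 mh mg hm hc gc hI gI hhc hgc hhI hgI S h0S t hS
      (fun c => φ (Zc c)) (φ ZI) ih0 ihc ihI

theorem germw_zero [AddCommMonoid R] [Fintype κ] [DecidableEq κ]
    {lf : ℕ → ℕ → ℕ → ℕ → Bool → R} {ed : ℕ → ℕ → Bool → ℂ[X] → Finset ℂ → R}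
    (h1 : ∀ x n y m t, lf x n y m t = 0) (h2 : ∀ N ν t P S, ed N ν t P S = 0)
    {a : ℕ} {h : MP} {g : Option κ → MP} {a0 n0 a1 n1 : ℕ} {Z : R}
    (hZ : GermW lf ed a h g a0 n0 a1 n1 Z) : Z = 0 := by
  classical
  induction hZ with
  | unit h g a0 n0 a1 n1 hh t ht hI => exact h1 _ _ _ _ _
  | curveV h g a0 n0 mh mg hm q kh k hh hg h0 h3 hkh t ht => exact h1 _ _ _ _ _
  | curveU h g a1 n1 mh mg hm q kh k hh hg h0 h3 hkh t ht => exact h1 _ _ _ _ _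
  | blowup h g a0 n0 a1 n1 mh mg hm hc gc hI gI hhc hgc hhI hgI S h0S t hS Zc ZI hz0 hcS hZI
      ih0 ihc ihI =>
    rw [h2, ihI, Finset.sum_eq_zero, add_zero, add_zero]
    intro c hc'
    by_cases h : c = 0
    · rw [h]
      exact ih0
    · exact ihc c hc' h

/-- a relation between contributions -/
theorem germw_rel [AddCommMonoid R] [AddCommMonoid R'] [Fintype κ] [DecidableEq κ] (φ : R →+ R')
    {lf : ℕ → ℕ → ℕ → ℕ → Bool → R} {ed : ℕ → ℕ → Bool → ℂ[X] → Finset ℂ → R}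
    (h1 : ∀ x n y m t, (x ≠ 0 ∨ y ≠ 0 ∨ t = true) → φ (lf x n y m t) = 0)
    (h2 : ∀ N ν t P S, 1 ≤ N → P ≠ 0 → φ (ed N ν t P S) = 0)
    {a : ℕ} {h : MP} {g : Option κ → MP} {a0 n0 a1 n1 : ℕ} {Z : R}
    (hZ : GermW lf ed a h g a0 n0 a1 n1 Z) : φ Z = 0 :=
  germw_zero (fun _ _ _ _ _ => rfl) (fun _ _ _ _ _ => rfl)
    (germw_map φ (lf' := fun _ _ _ _ _ => 0) (ed' := fun _ _ _ _ _ => 0) h1 h2 hZ)

/-- two kinds of contributions at the same time -/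
theorem germw_lift [AddCommMonoid R] [AddCommMonoid R']
    {lf : ℕ → ℕ → ℕ → ℕ → Bool → R} {ed : ℕ → ℕ → Bool → ℂ[X] → Finset ℂ → R}
    (lf' : ℕ → ℕ → ℕ → ℕ → Bool → R') (ed' : ℕ → ℕ → Bool → ℂ[X] → Finset ℂ → R')
    {a : ℕ} {h : MP} {g : Option κ → MP} {a0 n0 a1 n1 : ℕ} {Z : R}
    (hZ : GermW lf ed a h g a0 n0 a1 n1 Z) :
    ∃ Z' : R', GermW (fun x n y m t => (lf x n y m t, lf' x n y m t))
      (fun N ν t P S => (ed N ν t P S, ed' N ν t P S)) a h g a0 n0 a1 n1 (Z, Z') := by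
  classical
  induction hZ with
  | unit h g a0 n0 a1 n1 hh t ht hI =>
    exact ⟨_, GermW.unit h g a0 n0 a1 n1 hh t ht hI⟩
  | curveV h g a0 n0 mh mg hm q kh k hh hg h0 h3 hkh t ht =>
    exact ⟨_, GermW.curveV h g a0 n0 mh mg hm q kh k hh hg h0 h3 hkh t ht⟩
  | curveU h g a1 n1 mh mg hm q kh k hh hg h0 h3 hkh t ht =>
    exact ⟨_, GermW.curveU h g a1 n1 mh mg hm q kh k hh hg h0 h3 hkh t ht⟩
  | blowup h g a0 n0 a1 n1 mh mg hm hc gc hI gI hhc hgc hhI hgI S h0S t hS Zc ZI hz0 hcS hZI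
      ih0 ihc ihI =>
    obtain ⟨Y0, hY0⟩ := ih0
    obtain ⟨YI, hYI⟩ := ihI
    have hch : ∀ c : ℂ, ∃ Y : R', (c ∈ S → c ≠ 0 →
        GermW (fun x n y m t => (lf x n y m t, lf' x n y m t))
          (fun N ν t P S => (ed N ν t P S, ed' N ν t P S)) a (hc c) (gc c)
          (a0 + a1 + (mh + a * mg)) (n0 + n1) 0 1 (Zc c, Y)) := by
      intro c
      by_cases hcS : c ∈ S ∧ c ≠ 0
      · obtain ⟨Y, hY⟩ := ihc c hcS.1 hcS.2
        exact ⟨Y, fun _ _ => hY⟩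
      · exact ⟨0, fun h1 h2 => absurd ⟨h1, h2⟩ hcS⟩
    choose Y hY using hch
    let Yc : ℂ → R' := fun c => if c = 0 then Y0 else Y c
    have h5 := GermW.blowup (lf := fun x n y m t => (lf x n y m t, lf' x n y m t))
      (ed := fun N ν t P S => (ed N ν t P S, ed' N ν t P S)) h g a0 n0 a1 n1 mh mg hm hc gc hI gI
      hhc hgc hhI hgI S h0S t hS (fun c => (Zc c, Yc c)) (ZI, YI)
      (by simp only [Yc, if_pos]; exact hY0)
      (fun c hcS h => by simp only [Yc, if_neg h]; exact hY c hcS h) hYI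
    refine ⟨YI + ∑ c ∈ S, Yc c +
      ed' (a0 + a1 + (mh + a * mg)) (n0 + n1) t (edge a a1 t (hc 0) (gc 0)) S, ?_⟩
    convert h5 using 1
    ext
    · simp [Prod.fst_sum]
    · simp [Prod.snd_sum]

/-- the contributions lie in a subring -/
theorem germw_all [CommRing R] {D : Subring R}
    {lf : ℕ → ℕ → ℕ → ℕ → Bool → R} {ed : ℕ → ℕ → Bool → ℂ[X] → Finset ℂ → R}
    (h1 : ∀ x n y m t, 1 ≤ n → 1 ≤ m → lf x n y m t ∈ D)
    (h2 : ∀ N ν t P S, 1 ≤ ν → ed N ν t P S ∈ D)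
    {a : ℕ} {h : MP} {g : Option κ → MP} {a0 n0 a1 n1 : ℕ} {Z : R}
    (hZ : GermW lf ed a h g a0 n0 a1 n1 Z) (hn0 : 1 ≤ n0) (hn1 : 1 ≤ n1) : Z ∈ D := by
  classical
  induction hZ with
  | unit h g a0 n0 a1 n1 hh t ht hI => exact h1 _ _ _ _ _ hn0 hn1
  | curveV h g a0 n0 mh mg hm q kh k hh hg h0 h3 hkh t ht => exact h1 _ _ _ _ _ hn0 le_rfl
  | curveU h g a1 n1 mh mg hm q kh k hh hg h0 h3 hkh t ht => exact h1 _ _ _ _ _ hn1 le_rfl
  | blowup h g a0 n0 a1 n1 mh mg hm hc gc hI gI hhc hgc hhI hgI S h0S t hS Zc ZI hz0 hcS hZI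
      ih0 ihc ihI =>
    refine D.add_mem (D.add_mem (ihI hn0 (by omega)) ?_) (h2 _ _ _ _ _ (by omega))
    refine D.sum_mem fun c hcS => ?_
    by_cases h : c = 0
    · rw [h]
      exact ih0 (by omega) hn1
    · exact ihc c hcS h (by omega) le_rfl

/-- the usual zeta function -/
theorem germw_zeta [CommRing R] {Φ : ℕ → ℕ → R} {l : R} {a : ℕ} {h : MP} {g : Option κ → MP}
    {a0 n0 a1 n1 : ℕ} {Z : R}
    (hZ : GermW (fun x n y m t => Φ x n * Φ y m * typeFactor Φ a t)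
      (fun N ν t _ S => (l - (S.card : R)) * (Φ N ν * typeFactor Φ a t)) a h g a0 n0 a1 n1 Z) :
    GermZeta Φ l a h g a0 n0 a1 n1 Z := by
  classical
  induction hZ with
  | unit h g a0 n0 a1 n1 hh t ht hI => exact GermZeta.unit h g a0 n0 a1 n1 hh t ht
  | curveV h g a0 n0 mh mg hm q kh k hh hg h0 h3 hkh t ht =>
    exact GermZeta.curveV h g a0 n0 mh mg hm q kh k hh hg h0 h3 hkh t ht
  | curveU h g a1 n1 mh mg hm q kh k hh hg h0 h3 hkh t ht =>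
    exact GermZeta.curveU h g a1 n1 mh mg hm q kh k hh hg h0 h3 hkh t ht
  | blowup h g a0 n0 a1 n1 mh mg hm hc gc hI gI hhc hgc hhI hgI S h0S t hS Zc ZI hz0 hcS hZI
      ih0 ihc ihI =>
    exact GermZeta.blowup h g a0 n0 a1 n1 mh mg hm hc gc hI gI hhc hgc hhI hgI S h0S t hS Zc ZI
      ih0 ihc ihI

end Germ

end Pool.Agent.J4H46.MS
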