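import Pool.Agent.J4H46.MS.NodeB
import Pool.Agent.J4H46.MS.GermW
import Pool.Agent.J4H46.MS.Ops
import Pool.Agent.J4H46.MQ.Lift

set_option autoImplicit false
set_option linter.unusedSectionVars false
set_option linter.unusedVariables false

/-! # The contribution of a point: all the poles -/

namespace Pool.Agent.J4H46.MS

open PowerSeries Pool.Agent.W574.MO Pool.Agent.W574.RO Pool.Agent.W574.SM Pool.Agent.N103
open Pool.Agent.N103.V (Ev)
open Pool.Agent.J4H46.MQ (den_mono red red_mem red_eq point_simpleM qq11 ll Xcancel)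

open scoped Polynomial

/-- the evaluated functional equation does not hold at `-n/a` -/
def KE {σ : Type} (F : MvPolynomial σ ℂ) (p : σ → ℂ) (a n : ℕ) : Prop :=
  ∀ H : MvPolynomial σ ℂ, MvPolynomial.eval p H ≠ 0 → ¬ Ev H F (-(n : ℂ) / a)

section Cancel

variable {A : Type} [CommRing A] [IsDomain A] {L : Aˣ} {K : ℕ → ℕ → Prop}

theorem mem_of_C_mul {c : A} (hc : c ≠ 0) {Z : A⟦X⟧} (h : C c * Z ∈ DenRing L K) :
    Z ∈ DenRing L K := by
  obtain ⟨s, hs, N, hN⟩ := exists_dp h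
  refine mem_of_dp s hs ⟨N, fun e he => ?_⟩
  have h1 := hN e he
  have h2 : dp L s * (C c * Z) = C c * (dp L s * Z) := by ring
  rw [h2, coeff_C_mul] at h1
  exact (mul_eq_zero.1 h1).resolve_left hc

end Cancel

section Kap

variable {A : Type} [CommRing A] (L : Aˣ)

theorem mf_qf (a n : ℕ) (h : a ≠ 0) : mf L a n = C ((L : A) - 1) * qf L a n := by
  rw [mf_pos L (Nat.one_le_iff_ne_zero.2 h), qf, if_neg h]
  ring

theorem qf_zero (n : ℕ) : (qf L 0 n : A⟦X⟧) = 1 := if_pos rfl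

theorem kap_lfM {a : ℕ} (ha : 1 ≤ a) {x y : ℕ} {t : Bool} (h : x ≠ 0 ∨ y ≠ 0 ∨ t = true)
    (n m : ℕ) : C ((L : A) - 1) * lfM L a x n y m t
      = mf L x n * mf L y m * typeFactor (mf L) a t := by
  have ha' : a ≠ 0 := by omega
  have t1 : typeFactor (mf L) a true = C ((L : A) - 1) * qf L a 1 := mf_qf L a 1 ha'
  have t2 : typeFactor (mf L) a false = 1 := rfl
  have t3 : typeFactor (qf L) a true = qf L a 1 := rfl
  have t4 : typeFactor (qf L) a false = 1 := rfl
  by_cases hx : x = 0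
  · subst hx
    rw [lfM, mf_zero, qf_zero]
    by_cases hy : y = 0
    · subst hy
      rw [mf_zero, qf_zero]
      rcases t with _ | _
      · simp at h
      · rw [t1, t3]
        simp [nc]
    · rw [mf_qf L y m hy]
      rcases t with _ | _
      · rw [t2, t4]
        simp [nc, hy]
      · rw [t1, t3]
        simp only [nc, if_true, if_neg hy, map_pow]
        ring
  · rw [lfM, mf_qf L x n hx]
    by_cases hy : y = 0
    · subst hy
      rw [mf_zero, qf_zero]
      rcases t with _ | _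
      · rw [t2, t4]
        simp [nc, hx]
      · rw [t1, t3]
        simp only [nc, if_true, if_neg hx, map_pow]
        ring
    · rw [mf_qf L y m hy]
      rcases t with _ | _
      · rw [t2, t4]
        simp only [nc, if_neg hx, if_neg hy, Bool.false_eq_true, if_false, map_pow]
        ring
      · rw [t1, t3]
        simp only [nc, if_true, if_neg hx, if_neg hy, map_pow]
        ring

variable {L} {K : ℕ → ℕ → Prop}

theorem qf_all (x : ℕ) {n : ℕ} (hn : 1 ≤ n) : qf L x n ∈ DenRing L (fun _ _ => True) := by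
  rw [qf]
  split_ifs with h
  · exact Subring.one_mem _
  · exact Subring.mul_mem _ (qq_mem _ _) (geo_mem (Nat.one_le_iff_ne_zero.2 h) hn trivial)

theorem lfM_all (a x : ℕ) {n : ℕ} (y : ℕ) {m : ℕ} (t : Bool) (hn : 1 ≤ n) (hm : 1 ≤ m) :
    lfM L a x n y m t ∈ DenRing L (fun _ _ => True) := by
  rw [lfM]
  refine Subring.mul_mem _ (C_mem _) (Subring.mul_mem _ (Subring.mul_mem _ (qf_all x hn)
    (qf_all y hm)) ?_)
  rcases t with _ | _
  · exact Subring.one_mem _
  · exact qf_all a le_rfl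

end Kap

section Reg

variable {κ : Type} [Fintype κ] [DecidableEq κ]
variable {h : MP} {f : Option κ → MP} {a : ℕ} {c : κ → ℂ} {Pt : Fin 2 → ℂ}
variable {A : Type} [CommRing A] [IsDomain A] {L : Aˣ}

/-- the contribution of a point, with arbitrary weights: all the denominators -/
theorem allK (e : ℕ → A) (cW : ℕ → ℂ[X] → A) {h' : MP} {g : Option κ → MP} {a0 n0 a1 n1 : ℕ}
    {Z : A⟦X⟧} (hZ : GermW (lfK L a e) (edK L a e cW) a h' g a0 n0 a1 n1 Z) (hn0 : 1 ≤ n0)
    (hn1 : 1 ≤ n1) : Z ∈ DenRing L (fun _ _ => True) :=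
  germw_all (fun x n y m t hn hm => Subring.mul_mem _ (C_mem _) (lfM_all a x y t hn hm))
    (fun N ν t P S hν => Subring.mul_mem _ (C_mem _) (lfM_all a N 0 t hν le_rfl)) hZ hn0 hn1

/-- the contribution of a point is regular at `s`, if the evaluated functional equation holds -/
theorem regK (hF : FF h f a ≠ 0) (ha : 1 ≤ a) (hL1 : (L : A) - 1 ≠ 0) (e : ℕ → A)
    (cW : ℕ → ℂ[X] → A)
    (hc2 : ∀ (n : ℕ) (P : ℂ[X]), 1 ≤ n → P ≠ 0 → (spec n P).card ≤ 2 →
      cW n P = ((L : A) + 1) * e (gmul n P)) (he1 : e 1 = 0)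
    {H : MvPolynomial (Fin 2 ⊕ κ) ℂ} {s : ℂ} (hH : MvPolynomial.eval (Sum.elim Pt c) H ≠ 0)
    (hE : Ev H (FF h f a) s) {Z : A⟦X⟧}
    (hZ : GermW (lfK L a e) (edK L a e cW) a (translate Pt h) (fun j => translate Pt (fc c f j))
      0 1 0 1 Z) : Z ∈ DenRing L (Kn s) := by
  refine mem_of_C_mul hL1 ?_
  have h1 := germw_map (AddMonoidHom.mulLeft (C ((L : A) - 1)))
    (lf' := lfW a (mf L) (fun g => C (e g)))
    (ed' := edW a (mf L) (fun g => C (e g)) (fun n P => C (cW n P))) ?_ ?_ hZ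
  · refine point_regW hF hH ha hE (zdata_mot L s) (fun _ => C_mem _) (fun _ _ => C_mem _) ?_
      (Or.inr (by rw [he1, map_zero])) h1
    intro n P hn hP hsp
    rw [hc2 n P hn hP hsp, map_mul, map_add, map_one]
  · intro x n y m t hxy
    have h2 := kap_lfM L ha hxy n m
    rw [AddMonoidHom.coe_mulLeft, lfK, lfW, wt]
    linear_combination (C (e ((x.gcd y).gcd (ta a t)))) * h2
  · intro N ν t P S hN hP
    have h2 := kap_lfM L ha (x := N) (y := 0) (t := t) (Or.inl (by omega)) ν 1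
    rw [mf_zero, mul_one] at h2
    have e1 : (C (cW (N.gcd (ta a t)) P
        - ∑ z ∈ S, e ((N.gcd (ta a t)).gcd (P.rootMultiplicity z))
        - e ((N.gcd (ta a t)).gcd P.natDegree)) : A⟦X⟧) = C (cW (N.gcd (ta a t)) P)
        - ∑ z ∈ S, C (e ((N.gcd (ta a t)).gcd (P.rootMultiplicity z)))
        - C (e ((N.gcd (ta a t)).gcd P.natDegree)) := by
      rw [map_sub, map_sub, map_sum]
    rw [AddMonoidHom.coe_mulLeft, edK, edW, e1]
    linear_combination (C (cW (N.gcd (ta a t)) P)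
      - ∑ z ∈ S, C (e ((N.gcd (ta a t)).gcd (P.rootMultiplicity z)))
      - C (e ((N.gcd (ta a t)).gcd P.natDegree))) * h2

end Reg

section Desc

variable {R : Type} [CommRing R] [IsDomain R] [UniqueFactorizationMonoid R] {L : Rˣ}

/-- all the poles at the same time -/
theorem descK (hL : ∀ k l : ℕ, k ≠ l → ((L ^ k : Rˣ) : R) - ((L ^ l : Rˣ) : R) ≠ 0)
    {K : ℕ → ℕ → Prop} {x : R⟦X⟧} (hall : x ∈ DenRing L (fun _ _ => True))
    (h : ∀ a n : ℕ, 1 ≤ a → 1 ≤ n → ¬ K a n → x ∈ DenRing L (Kn (-(n : ℂ) / a))) :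
    x ∈ DenRing L K := by
  obtain ⟨s, hs, Q, hQ⟩ := Pool.Agent.J4H46.MQ.Ufd.exists_denom L hall
  refine Pool.Agent.J4H46.MQ.Ufd.descent L hL K x s (fun p hp => ⟨(hs p hp).1, (hs p hp).2.1⟩)
    ?_ Q hQ
  intro a' n ha' hn hne
  have hac : (a' : ℂ) ≠ 0 := Nat.cast_ne_zero.2 (by omega)
  refine den_mono (fun a1 n1 ha1 hn1 hK => ?_) (h a' n ha' hn hne)
  intro h3
  apply hK
  have h4 : (n : ℂ) * a1 = n1 * a' := by exact_mod_cast h3
  field_simp
  linear_combination -h4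

theorem descE (hL : ∀ k l : ℕ, k ≠ l → ((L ^ k : Rˣ) : R) - ((L ^ l : Rˣ) : R) ≠ 0)
    {σ : Type} {F : MvPolynomial σ ℂ} {p : σ → ℂ} {x : R⟦X⟧}
    (hall : x ∈ DenRing L (fun _ _ => True))
    (h : ∀ (H : MvPolynomial σ ℂ) (s : ℂ), MvPolynomial.eval p H ≠ 0 → Ev H F s →
      x ∈ DenRing L (Kn s)) : x ∈ DenRing L (KE F p) := by
  refine descK hL hall fun a n _ _ hK => ?_
  rw [KE] at hK
  push Not at hK
  obtain ⟨H, hH, hE⟩ := hK
  exact h H _ hH hE

end Desc

section Rho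

variable {κ : Type} [Fintype κ] [DecidableEq κ]
variable {h : MP} {f : Option κ → MP} {a : ℕ} {c : κ → ℂ} {Pt : Fin 2 → ℂ}

theorem LL_ne (k l : ℕ) (h : k ≠ l) : ((LL ^ k : AAˣ) : AA) - ((LL ^ l : AAˣ) : AA) ≠ 0 :=
  LL_pow_ne h

theorem LL_sub_one : ((LL : AAˣ) : AA) - 1 ≠ 0 := by
  have := LL_ne 1 0 (by decide)
  rwa [pow_one, pow_zero, Units.val_one] at this

/-- the usual zeta function -/
theorem zeta_of_rho (ha : 1 ≤ a) {ρ : PowerSeries AA}
    (hZ : GermW (lfK LL a (fun _ => 1)) (edK LL a (fun _ => 1) (fun _ _ => ((LL : AAˣ) : AA) + 1))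
      a (translate Pt h) (fun j => translate Pt (fc c f j)) 0 1 0 1 ρ) :
    PointZeta (mf LL) (C ((LL : AAˣ) : AA)) h f a Pt c (C (((LL : AAˣ) : AA) - 1) * ρ) := by
  refine germw_zeta (germw_map (AddMonoidHom.mulLeft (C (((LL : AAˣ) : AA) - 1))) ?_ ?_ hZ)
  · intro x n y m t hxy
    rw [AddMonoidHom.coe_mulLeft, lfK, map_one, one_mul]
    exact kap_lfM LL ha hxy n m
  · intro N ν t P S hN hP
    have h2 := kap_lfM LL ha (x := N) (y := 0) (t := t) (Or.inl (by omega)) ν 1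
    rw [mf_zero, mul_one] at h2
    have e1 : (C (((LL : AAˣ) : AA) + 1 - ((S.card : ℕ) : AA) - 1) : PowerSeries AA)
        = C ((LL : AAˣ) : AA) - (S.card : PowerSeries AA) := by
      rw [map_sub, map_sub, map_add, map_one, map_natCast]
      ring
    rw [AddMonoidHom.coe_mulLeft, edK, Finset.sum_const, nsmul_eq_mul, mul_one, e1]
    linear_combination (C ((LL : AAˣ) : AA) - (S.card : PowerSeries AA)) * h2

/-- the reduced zeta function -/
theorem red_rho (hF : FF h f a ≠ 0) (ha : 1 ≤ a) {Z : PowerSeries AA}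
    (hZ : PointZeta (mf LL) (C ((LL : AAˣ) : AA)) h f a Pt c Z) :
    red LL Z ∈ DenRing LL (KE (FF h f a) (Sum.elim Pt c)) := by
  have hv : Pool.Agent.W574.RO.Val Z 1 := by
    have := val_localA hZ le_rfl le_rfl (fun _ => rfl) (fun _ => rfl)
    rwa [div_self (lf_ne 1 le_rfl), one_mul] at this
  refine descE LL_ne ?_ ?_
  · exact red_mem (Subring.mul_mem _ (Subring.sub_mem _ (Subring.one_mem _)
      (qq_mem _ _)) (mem_allA LL hZ le_rfl le_rfl)) hv
  · intro H s hH hE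
    refine red_mem ?_ hv
    by_cases hs : s = -1
    · rw [hs] at hE ⊢
      exact point_simpleM LL hF hH ha hE hZ
    · exact Subring.mul_mem _ (Subring.sub_mem _ (Subring.one_mem _)
        (qq_mem _ _)) (Pool.Agent.N103.V.point_reg hF hH ha hE (zdata_mot LL s) (Or.inl hs) hZ)

/-- the properties of `ρ` -/
theorem rho_mem (hF : FF h f a ≠ 0) (ha : 1 ≤ a) {ρ : PowerSeries AA}
    (hZ : GermW (lfK LL a (fun _ => 1)) (edK LL a (fun _ => 1) (fun _ _ => ((LL : AAˣ) : AA) + 1))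
      a (translate Pt h) (fun j => translate Pt (fc c f j)) 0 1 0 1 ρ) :
    (1 - qq LL 1 1) * ρ ∈ DenRing LL (KE (FF h f a) (Sum.elim Pt c)) ∧
      gtr (C (((LL : AAˣ) : AA) - 1) * ρ) - ρ ∈ DenRing LL (KE (FF h f a) (Sum.elim Pt c)) := by
  have hW := red_rho hF ha (zeta_of_rho ha hZ)
  set W := red LL (C (((LL : AAˣ) : AA) - 1) * ρ) with hWd
  have h1 := red_eq LL (C (((LL : AAˣ) : AA) - 1) * ρ)
  rw [← hWd] at h1
  have h5 := ll LL
  constructor
  · refine mem_of_C_mul LL_sub_one ?_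
    have e1 : C (((LL : AAˣ) : AA) - 1) * ((1 - qq LL 1 1) * ρ)
        = (1 - X) * W + C (1 - ((LL⁻¹ : AAˣ) : AA)) * X := by
      linear_combination -h1
    rw [e1]
    exact Subring.add_mem _ (Subring.mul_mem _ (Subring.sub_mem _ (Subring.one_mem _) X_mem) hW)
      (Subring.mul_mem _ (C_mem _) X_mem)
  · refine mem_of_C_mul LL_sub_one ?_
    have h2 := gtr_eq (C (((LL : AAˣ) : AA) - 1) * ρ)
    have e1 : C (((LL : AAˣ) : AA) - 1) * (gtr (C (((LL : AAˣ) : AA) - 1) * ρ) - ρ)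
        = C (((LL : AAˣ) : AA) - 1) - C ((LL : AAˣ) : AA) * W := by
      apply Xcancel
      rw [qq11, map_sub, map_sub, map_one] at h1
      rw [map_sub, map_one] at h2 ⊢
      set l := (C ((LL : AAˣ) : AA) : PowerSeries AA)
      set li := (C ((LL⁻¹ : AAˣ) : AA) : PowerSeries AA)
      linear_combination (l - 1) * h2 + l * h1 - (X * ((l - 1) * ρ - 1)) * h5
    rw [e1]
    exact Subring.sub_mem _ (C_mem _) (Subring.mul_mem _ (C_mem _) hW)

end Rho

end Pool.Agent.J4H46.MS
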