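import Pool.Agent.J4H46.MS.NodeA
import Pool.Agent.J4H46.MQ.Branch

set_option autoImplicit false
set_option linter.unusedSectionVars false
set_option linter.unusedVariables false
set_option linter.unusedSimpArgs false

/-! # The multiplicities at the points of an exceptional curve -/

namespace Pool.Agent.J4H46.MS

open Pool.Agent.W574.SM Pool.Agent.N103
open Pool.Agent.N103.V (InvE leaf_unit leaf_curve typeH_ne curve_ne Ev tfm)
open Pool.Agent.J4H46.MQ (ord_eq rm_Xpow)

open Polynomial

theorem gcd_add_of_dvd {n w : ℕ} (x : ℕ) (h : n ∣ w) : Nat.gcd n (x + w) = Nat.gcd n x := by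
  apply Nat.dvd_antisymm
  · refine Nat.dvd_gcd (Nat.gcd_dvd_left _ _) ?_
    exact (Nat.dvd_add_left ((Nat.gcd_dvd_left _ _).trans h)).1 (Nat.gcd_dvd_right _ _)
  · exact Nat.dvd_gcd (Nat.gcd_dvd_left _ _)
      (Nat.dvd_add (Nat.gcd_dvd_right _ _) ((Nat.gcd_dvd_left _ _).trans h))

theorem gcd_compl {n x y : ℕ} (h : n ∣ x + y) : Nat.gcd n x = Nat.gcd n y := by
  apply Nat.dvd_antisymm
  · refine Nat.dvd_gcd (Nat.gcd_dvd_left _ _) ?_
    exact (Nat.dvd_add_right (Nat.gcd_dvd_right _ _)).1 ((Nat.gcd_dvd_left _ _).trans h)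
  · refine Nat.dvd_gcd (Nat.gcd_dvd_left _ _) ?_
    exact (Nat.dvd_add_left (Nat.gcd_dvd_right _ _)).1 ((Nat.gcd_dvd_left _ _).trans h)

/-- the special points, from the multiplicities -/
theorem spec_gmul {n g : ℕ} (hn : 1 ≤ n) (hg : g ∣ n) {P : ℂ[X]} (hP : P ≠ 0) (S : Finset ℂ)
    (hS : ∀ z ∉ S, P.eval z ≠ 0)
    (hs : ∀ e : ℕ → ℤ, ∑ z ∈ S, e (Nat.gcd n (P.rootMultiplicity z)) + e (Nat.gcd n P.natDegree)
      = 2 * e g + ((S.card : ℤ) - 1) * e n) : (spec n P).card ≤ 2 ∧ gmul n P = g := by
  classical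
  have hroot : ∀ z, P.rootMultiplicity z ≠ 0 → z ∈ S := by
    intro z hz
    by_contra h
    exact hS z h ((rootMultiplicity_pos hP).1 (Nat.pos_of_ne_zero hz))
  constructor
  · have h1 := hs fun x => if x = n then 0 else 1
    simp only [if_true, mul_zero, add_zero] at h1
    have h2 : ((spec n P).card : ℤ) = ∑ z ∈ S, (if Nat.gcd n (P.rootMultiplicity z) = n then (0 : ℤ)
        else 1) + (if Nat.gcd n P.natDegree = n then 0 else 1) := by
      have e1 : (P.roots.toFinset.filter fun z => ¬ n ∣ P.rootMultiplicity z)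
          = S.filter fun z => ¬ (Nat.gcd n (P.rootMultiplicity z) = n) := by
        ext z
        rw [Finset.mem_filter, Finset.mem_filter, Multiset.mem_toFinset, mem_roots hP,
          Nat.gcd_eq_left_iff_dvd]
        constructor
        · rintro ⟨_, h⟩
          refine ⟨hroot z ?_, h⟩
          intro h0
          rw [h0] at h
          exact h (dvd_zero _)
        · rintro ⟨_, h⟩
          refine ⟨?_, h⟩
          rw [← rootMultiplicity_pos hP]
          apply Nat.pos_of_ne_zero
          intro h0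
          rw [h0] at h
          exact h (dvd_zero _)
      have e2 : ((S.filter fun z => ¬ (Nat.gcd n (P.rootMultiplicity z) = n)).card : ℤ)
          = ∑ z ∈ S, if Nat.gcd n (P.rootMultiplicity z) = n then (0 : ℤ) else 1 := by
        rw [Finset.card_filter]
        push_cast
        refine Finset.sum_congr rfl fun z _ => ?_
        by_cases h : Nat.gcd n (P.rootMultiplicity z) = n
        · rw [if_neg (not_not.2 h), if_pos h]
        · rw [if_pos h, if_neg h]
      rw [← e2, ← e1, spec, Finset.card_union_of_disjoint, Finset.card_map]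
      · push_cast
        congr 1
        by_cases h : n ∣ P.natDegree
        · rw [if_pos h, if_pos (Nat.gcd_eq_left_iff_dvd.2 h)]
          rfl
        · rw [if_neg h, if_neg (fun h' => h (Nat.gcd_eq_left_iff_dvd.1 h'))]
          rfl
      · rw [Finset.disjoint_left]
        intro x hx hx2
        rw [Finset.mem_map] at hx
        obtain ⟨z, _, rfl⟩ := hx
        split_ifs at hx2 with h
        · exact absurd hx2 (Finset.notMem_empty _)
        · rw [Finset.mem_singleton] at hx2
          exact Option.some_ne_none z hx2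
    rw [← h2] at h1
    by_cases h3 : g = n
    · rw [if_pos h3] at h1
      omega
    · rw [if_neg h3] at h1
      omega
  · have hmem : ∀ z ∈ S, Nat.gcd n (P.rootMultiplicity z) = g
        ∨ Nat.gcd n (P.rootMultiplicity z) = n := by
      have h1 := hs fun x => if x = g ∨ x = n then 0 else 1
      simp only [true_or, or_true, if_true, mul_zero, add_zero] at h1
      have h2 : ∀ z ∈ S, (0 : ℤ) ≤ if Nat.gcd n (P.rootMultiplicity z) = g
          ∨ Nat.gcd n (P.rootMultiplicity z) = n then 0 else 1 := by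
        intro z _
        split_ifs <;> norm_num
      have h3 : (0 : ℤ) ≤ if Nat.gcd n P.natDegree = g ∨ Nat.gcd n P.natDegree = n then 0
          else 1 := by
        split_ifs <;> norm_num
      have h4 := Finset.sum_nonneg h2
      have h5 : ∑ z ∈ S, (if Nat.gcd n (P.rootMultiplicity z) = g
          ∨ Nat.gcd n (P.rootMultiplicity z) = n then (0 : ℤ) else 1) = 0 := by linarith
      intro z hz
      have h6 := (Finset.sum_eq_zero_iff_of_nonneg h2).1 h5 z hz
      by_contra h
      rw [if_neg h] at h6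
      exact one_ne_zero h6
    rw [gmul]
    apply Nat.dvd_antisymm
    · by_cases h3 : g = n
      · rw [h3]
        exact Nat.gcd_dvd_left _ _
      · have h1 := hs fun x => if x = g then 1 else 0
        simp only [if_true, if_neg (Ne.symm h3), mul_zero, mul_one, add_zero] at h1
        have h2 : ∃ z ∈ S, Nat.gcd n (P.rootMultiplicity z) = g := by
          by_contra h
          push Not at h
          rw [Finset.sum_eq_zero fun z hz => if_neg (h z hz)] at h1
          split_ifs at h1
          · norm_num at h1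
          · norm_num at h1
        obtain ⟨z, hz, h4⟩ := h2
        have h5 : z ∈ P.roots.toFinset := by
          rw [Multiset.mem_toFinset, mem_roots hP, ← rootMultiplicity_pos hP]
          apply Nat.pos_of_ne_zero
          intro h0
          rw [h0, Nat.gcd_zero_right] at h4
          exact h3 h4.symm
        rw [← h4]
        exact Nat.dvd_gcd (Nat.gcd_dvd_left _ _)
          ((Nat.gcd_dvd_right _ _).trans (Finset.gcd_dvd h5))
    · refine Nat.dvd_gcd hg (Finset.dvd_gcd fun z hz => ?_)
      rw [Multiset.mem_toFinset, mem_roots hP, ← rootMultiplicity_pos hP] at hz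
      rcases hmem z (hroot z hz.ne') with h | h
      · rw [← h]
        exact Nat.gcd_dvd_right _ _
      · exact hg.trans (by
          conv_lhs => rw [← h]
          exact Nat.gcd_dvd_right _ _)

section Count

variable {κ : Type} [Fintype κ] [DecidableEq κ] {h' : MP} {g : Option κ → MP} {a mh mg a0 a1 : ℕ}
  {hc : ℂ → MP} {gc : ℂ → Option κ → MP} {hI : MP} {gI : Option κ → MP}

/-- the polynomial on the exceptional curve is not zero outside `S` -/
theorem edge_facts
    (hhc : ∀ z, MvPolynomial.aeval (chart z) h' = MvPolynomial.X 0 ^ mh * hc z)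
    (hgc : ∀ z j, MvPolynomial.aeval (chart z) (g j) = MvPolynomial.X 0 ^ mg * gc z j)
    (S : Finset ℂ) (h0S : 0 ∈ S) (t : Bool)
    (hS : ∀ z ∉ S, MvPolynomial.constantCoeff (hc z) ≠ 0 ∧ HasType (gc z) t) :
    edge a a1 t (hc 0) (gc 0) ≠ 0 ∧ ∀ z ∉ S, (edge a a1 t (hc 0) (gc 0)).eval z ≠ 0 := by
  classical
  have hhz : ∀ z, res0 (hc z) = (res0 (hc 0)).comp (X + C z) := fun z =>
    res0_chart h' (hc 0) (hc z) mh z (hhc 0) (hhc z)
  have hgz : ∀ z j, res0 (gc z j) = (res0 (gc 0 j)).comp (X + C z) := fun z j =>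
    res0_chart (g j) (gc 0 j) (gc z j) mg z (hgc 0 j) (hgc z j)
  have hcc : ∀ (z : ℂ) (x y : MP), res0 x = (res0 y).comp (X + C z) →
      (res0 y).eval z = MvPolynomial.constantCoeff x := by
    intro z x y hxy
    rw [← coeff_res0, hxy, coeff_zero_eq_eval_zero, eval_comp]
    simp
  have hPhS : ∀ z ∉ S, (res0 (hc 0)).eval z ≠ 0 := by
    intro z hz
    rw [hcc z (hc z) (hc 0) (hhz z)]
    exact (hS z hz).1
  obtain ⟨z1, hz1S⟩ := Infinite.exists_notMem_finset S
  set R : ℂ[X] := if t then 1 else res0 (gc 0 none) ^ a with hR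
  have hRS : ∀ z ∉ S, R.eval z ≠ 0 := by
    intro z hz
    rw [hR]
    rcases t with _ | _
    · simp only [Bool.false_eq_true, if_false]
      rw [eval_pow]
      apply pow_ne_zero
      rw [hcc z _ _ (hgz z none)]
      exact (hS z hz).2
    · simp only [if_true]
      rw [eval_one]
      exact one_ne_zero
  have hE : edge a a1 t (hc 0) (gc 0) = X ^ a1 * (res0 (hc 0) * R) := rfl
  have hES : ∀ z ∉ S, (edge a a1 t (hc 0) (gc 0)).eval z ≠ 0 := by
    intro z hz
    rw [hE, eval_mul, eval_mul, eval_pow, eval_X]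
    refine mul_ne_zero (pow_ne_zero _ ?_) (mul_ne_zero (hPhS z hz) (hRS z hz))
    rintro rfl
    exact hz h0S
  refine ⟨?_, hES⟩
  intro h0
  apply hES z1 hz1S
  rw [h0, eval_zero]

/-- the multiplicities of the polynomial on the exceptional curve -/
theorem edge_mult
    (hhc : ∀ z, MvPolynomial.aeval (chart z) h' = MvPolynomial.X 0 ^ mh * hc z)
    (hgc : ∀ z j, MvPolynomial.aeval (chart z) (g j) = MvPolynomial.X 0 ^ mg * gc z j)
    (hhI : MvPolynomial.aeval chartI h' = MvPolynomial.X 1 ^ mh * hI)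
    (hgI : ∀ j, MvPolynomial.aeval chartI (g j) = MvPolynomial.X 1 ^ mg * gI j)
    (S : Finset ℂ) (h0S : 0 ∈ S) (t : Bool)
    (hS : ∀ z ∉ S, MvPolynomial.constantCoeff (hc z) ≠ 0 ∧ HasType (gc z) t)
    (μ : ℂ → ℕ) (μI : ℕ)
    (hμ : ∀ z, Ord0 (fam t a (hc z) (gc z)) (μ z)) (hμI : Ord1 (fam t a hI gI) μI)
    {n : ℕ} (hnN : n ∣ a0 + a1 + (mh + a * mg)) (hna : n ∣ ta a t) :
    (∀ z, Nat.gcd n ((edge a a1 t (hc 0) (gc 0)).rootMultiplicity z)
      = Nat.gcd n ((if z = 0 then a1 else 0) + μ z)) ∧
    Nat.gcd n (edge a a1 t (hc 0) (gc 0)).natDegree = Nat.gcd n (a0 + μI) := by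
  classical
  set m := mh + a * mg with hmd
  have hhz : ∀ z, res0 (hc z) = (res0 (hc 0)).comp (X + C z) := fun z =>
    res0_chart h' (hc 0) (hc z) mh z (hhc 0) (hhc z)
  have hgz : ∀ z j, res0 (gc z j) = (res0 (gc 0 j)).comp (X + C z) := fun z j =>
    res0_chart (g j) (gc 0 j) (gc z j) mg z (hgc 0 j) (hgc z j)
  obtain ⟨hEne, hES⟩ := edge_facts (a := a) (a1 := a1) hhc hgc S h0S t hS
  set R : ℂ[X] := if t then 1 else res0 (gc 0 none) ^ a with hR
  have hE : edge a a1 t (hc 0) (gc 0) = X ^ a1 * (res0 (hc 0) * R) := rfl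
  have hHR : res0 (hc 0) * R ≠ 0 := by
    intro h0
    apply hEne
    rw [hE, h0, mul_zero]
  have hPh : res0 (hc 0) ≠ 0 := left_ne_zero_of_mul hHR
  set Q : Option κ → ℂ[X] := fun j => res0 (hc 0) * res0 (if t then gc 0 j else gc 0 none) ^ a
    with hQ
  have hsel : ∀ z j, res0 (fam t a (hc z) (gc z) j) = (Q j).comp (X + C z) := by
    intro z j
    rw [fam, map_mul, map_pow, hQ, mul_comp, pow_comp, hhz]
    congr 2
    rcases t with _ | _
    · simp only [Bool.false_eq_true, if_false]; exact hgz z none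
    · simp only [if_true]; exact hgz z j
  have hQ0 : ∀ j, res0 (fam t a (hc 0) (gc 0) j) = Q j := by
    intro j
    rw [hsel, map_zero, add_zero, comp_X]
  -- the multiplicities of `Q j`
  have hpar : ∀ (j : Option κ), Q j ≠ 0 →
      (∀ z, ∃ w, n ∣ w ∧ (Q j).rootMultiplicity z = (res0 (hc 0) * R).rootMultiplicity z + w) ∧
      ∃ w, n ∣ w ∧ (Q j).natDegree = (res0 (hc 0) * R).natDegree + w := by
    intro j hQj
    rcases t with _ | _
    · have : Q j = res0 (hc 0) * R := by
        rw [hQ, hR]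
        simp only [Bool.false_eq_true, if_false]
      rw [this]
      exact ⟨fun z => ⟨0, dvd_zero _, rfl⟩, ⟨0, dvd_zero _, rfl⟩⟩
    · have hna' : n ∣ a := hna
      have hR1 : R = 1 := by
        rw [hR]
        simp only [if_true]
      have hQj' : Q j = res0 (hc 0) * res0 (gc 0 j) ^ a := by
        rw [hQ]
        simp only [if_true]
      have hne : res0 (gc 0 j) ^ a ≠ 0 := by
        intro h0
        apply hQj
        rw [hQj', h0, mul_zero]
      rw [hR1, mul_one, hQj']
      constructor
      · intro z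
        refine ⟨a * (res0 (gc 0 j)).rootMultiplicity z, hna'.mul_right _, ?_⟩
        rw [rootMultiplicity_mul (mul_ne_zero hPh hne), ← count_roots (p := res0 (gc 0 j) ^ a),
          roots_pow, Multiset.count_nsmul, count_roots]
      · refine ⟨a * (res0 (gc 0 j)).natDegree, hna'.mul_right _, ?_⟩
        rw [natDegree_mul hPh hne, natDegree_pow]
  constructor
  · intro z
    obtain ⟨j, hj⟩ := (hμ z).2
    have h1 := (hμ z).1 j
    rw [hsel] at hj h1
    obtain ⟨h2, h3⟩ := ord_eq h1 hj
    obtain ⟨w, hw, h4⟩ := (hpar j h2).1 z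
    rw [hE, rootMultiplicity_mul (by rw [← hE]; exact hEne), rm_Xpow, h3, h4, ← add_assoc,
      gcd_add_of_dvd _ hw]
  · obtain ⟨j, hj⟩ := hμI.2
    have h1 := hμI.1 j
    obtain ⟨d1, d2, d3⟩ := coeff_resI (fam t a h' g j) (fam t a (hc 0) (gc 0) j) (fam t a hI gI j) m
      (fam_chart t a mh mg (MvPolynomial.aeval (chart 0)) (MvPolynomial.X 0) h' (hc 0) g (gc 0)
        (hhc 0) (hgc 0) j)
      (fam_chart t a mh mg (MvPolynomial.aeval chartI) (MvPolynomial.X 1) h' hI g gI hhI hgI j)
    rw [hQ0] at d1 d3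
    have hle : μI ≤ m := (le_natDegree_of_ne_zero hj).trans d2
    rw [d3 μI hle] at hj
    have hQj : Q j ≠ 0 := by
      intro h0
      rw [h0, coeff_zero] at hj
      exact hj rfl
    have hnd : (Q j).natDegree = m - μI := by
      refine le_antisymm ?_ (le_natDegree_of_ne_zero hj)
      by_contra h2
      push Not at h2
      have h3 := h1 (m - (Q j).natDegree) (by omega)
      rw [d3 _ (by omega)] at h3
      have h4 : m - (m - (Q j).natDegree) = (Q j).natDegree := by omega
      rw [h4] at h3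
      exact hQj (leadingCoeff_eq_zero.1 h3)
    obtain ⟨w, hw, h4⟩ := (hpar j hQj).2
    apply gcd_compl
    rw [hE, natDegree_mul (pow_ne_zero _ X_ne_zero) hHR, natDegree_X_pow]
    have h5 : (a1 + (res0 (hc 0) * R).natDegree + (a0 + μI)) + w = a0 + a1 + m := by omega
    rw [← h5] at hnN
    exact (Nat.dvd_add_left hw).1 hnN

end Count

end Pool.Agent.J4H46.MS
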