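import Pool.Agent.J4H46.MS.Good
import Pool.Agent.N103.V.Final

set_option autoImplicit false
set_option linter.unusedSectionVars false
set_option linter.unusedVariables false

/-! # The monodromic zeta functions of germs which are iterated suspensions -/

namespace Pool.Agent.J4H46.MS

open Pool.Agent.W574.SM Pool.Agent.N103 Pool.Agent.N103.V Pool.Agent.H628R4.TP Pool.Agent.W574.MO
open Pool.Agent.Y229.PS (IsFormalBFunction coordB formal_of_unit local_of_formal formal_of_local)
open Pool.Agent.J4H46.MQ (map_den den_mono)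

open scoped PowerSeries

variable {M E : Type} [CommRing M] [CommRing E] [Algebra M E] {L : Mˣ} {S : MonSys M E L}

/-- the zeta functions of a polynomial with the properties `SGood` -/
theorem good_local {N : ℕ} (f : MvPowerSeries (Fin N) ℂ)
    {σ : Type} (F : MvPolynomial σ ℂ) (hf : BecomesAt f F) (Z : E⟦X⟧) (hG : SGood S F 0 Z)
    (b : Polynomial ℂ) (hb : IsFormalBFunction f b) :
    Z ∈ DenRing (LE L) (Kb b) ∧ cm S.tot Z ∈ DenRing L (Kb b) := by
  obtain ⟨ε, φ, u, hφ, hφ0, hu, h3⟩ := hf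
  obtain ⟨u, rfl⟩ := hu
  have h4 : IsLocalBFunction (MvPolynomial.rename ε F) b := by
    refine local_of_formal (formal_of_unit (Units.inv_mul u) ?_)
    rw [← h3]
    exact coordB hφ hφ0 hb
  have hinj := MvPolynomial.rename_injective ε ε.injective (R := ℂ)
  have hne : MvPolynomial.rename ε F ≠ 0 := by
    intro h5
    exact hG.ne (hinj (by rw [h5, map_zero]))
  obtain ⟨H, hH, hHb⟩ := heq_of_local _ hne b h4
  have hH2 : MvPolynomial.eval (0 : σ → ℂ) (MvPolynomial.rename ε.symm H) ≠ 0 := by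
    rw [MvPolynomial.eval_rename]
    have : ((0 : σ → ℂ) ∘ ε.symm) = 0 := rfl
    rw [this, MvPolynomial.eval_zero]
    exact hH
  have hb1 : b.eval (-1) = 0 := by
    refine root_minus_one (p := 0) hne ?_ ?_ hHb
    · rw [MvPolynomial.eval_rename]
      exact hG.zero
    · rw [MvPolynomial.eval_zero]
      exact hH
  have hK : ∀ a n, 1 ≤ a → 1 ≤ n → KE F 0 a n → Kb b a n := by
    intro a n ha hn h
    rw [Kb]
    by_contra hne2
    exact h _ hH2 (ev_rename ε (Ev_of_heq hne hHb hne2))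
  have hK1 : Kb b 1 1 := by
    rw [Kb]
    convert hb1 using 2
    norm_num
  obtain ⟨R, ρ, hZ, hR, hσ, hδ⟩ := hG.dec
  have hρ : ρ ∈ DenRing L (Kb b) := by
    have h1 : ρ = geo L 1 1 * ((1 - qq L 1 1) * ρ) := by
      linear_combination (-ρ) * geo_mul L (le_refl 1) 1
    rw [h1]
    exact Subring.mul_mem _ (geo_mem le_rfl le_rfl hK1) (den_mono hK hσ)
  have hZ1 : Z ∈ DenRing (LE L) (Kb b) := by
    rw [hZ]
    exact Subring.add_mem _ (den_mono hK hR) (map_den _ hι' hρ)
  exact ⟨hZ1, cm_mem' _ hZ1⟩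

/-- **The local theorem.** -/
theorem sz_local {N : ℕ} (f : MvPowerSeries (Fin N) ℂ)
    {σ : Type} (F : MvPolynomial σ ℂ) (hf : BecomesAt f F) (Z : E⟦X⟧) (hZ : SZ S σ F 0 Z)
    (b : Polynomial ℂ) (hb : IsFormalBFunction f b) :
    Z ∈ DenRing (LE L) (Kb b) ∧ cm S.tot Z ∈ DenRing L (Kb b) :=
  good_local f F hf Z (sz_good hZ) b hb

end Pool.Agent.J4H46.MS
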