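import Pool.Agent.J4H46.MS.Univ
import Pool.Agent.N103.V.GoodB

set_option autoImplicit false
set_option linter.unusedSectionVars false
set_option linter.unusedVariables false

/-! # The monodromic zeta functions in the class -/

namespace Pool.Agent.J4H46.MS

open PowerSeries Pool.Agent.W574.MO Pool.Agent.W574.RO Pool.Agent.W574.SM Pool.Agent.N103
open Pool.Agent.R852.MC
open Pool.Agent.N103.V (Ev Fd Fd_ne susp cz eval_cz ev_pow pow_contra)
open Pool.Agent.J4H46.MQ (hom_inv_pow map_qq map_geo map_den den_mono qq11 ll Xcancel)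

open scoped Polynomial

section Ke

variable {σ : Type} {G : MvPolynomial σ ℂ} {p : σ → ℂ}

theorem ke_susp {d : ℕ} (hd : 2 ≤ d) (a n : ℕ) (ha : 1 ≤ a) (hn : 1 ≤ n) (h : KE G p a n) :
    KE (Fd d G) (fun i : Option σ => i.elim 0 p) (d * a) (d * n + a) := by
  intro H hH hE
  have hac : (a : ℂ) ≠ 0 := Nat.cast_ne_zero.2 (by omega)
  have hdc : (d : ℂ) ≠ 0 := Nat.cast_ne_zero.2 (by omega)
  have hs : ∀ m : ℕ, -((d * n + a : ℕ) : ℂ) / ((d * a : ℕ) : ℂ) ≠ m := by
    intro m hm
    rw [div_eq_iff (by push_cast; exact mul_ne_zero hdc hac)] at hm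
    have h1 : ((d * n + a + m * (d * a) : ℕ) : ℂ) = 0 := by
      push_cast at hm ⊢
      linear_combination -hm
    rw [Nat.cast_eq_zero] at h1
    omega
  have hE' := susp hd hs hE
  refine h (cz H) (by rw [eval_cz]; exact hH) ?_
  convert hE' using 1
  push_cast
  field_simp
  ring

theorem ke_pow {k : ℕ} (hk : 2 ≤ k) (a n : ℕ) (ha : 1 ≤ a) (hn : 1 ≤ n) (h : KE G p a n) :
    KE (G ^ k) p (k * a) n := by
  intro H hH hE
  have hac : (a : ℂ) ≠ 0 := Nat.cast_ne_zero.2 (by omega)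
  have hkc : (k : ℂ) ≠ 0 := Nat.cast_ne_zero.2 (by omega)
  refine h H hH ?_
  have hE' := ev_pow (by omega : 1 ≤ k) hE
  convert hE' using 1
  push_cast
  field_simp

theorem ke_pow_one {k : ℕ} (hk : 2 ≤ k) (hG0 : G ≠ 0) (hG : MvPolynomial.eval p G = 0) :
    KE (G ^ k) p k 1 := by
  intro H hH hE
  refine pow_contra hk hG0 hG hH ?_
  rwa [Nat.cast_one] at hE

end Ke

variable {M E : Type} [CommRing M] [CommRing E] [Algebra M E] {L : Mˣ} {S : MonSys M E L}

/-- the property of the zeta functions -/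
structure SGood (S : MonSys M E L) {σ : Type} (F : MvPolynomial σ ℂ) (p : σ → ℂ) (Z : E⟦X⟧) :
    Prop where
  ne : F ≠ 0
  zero : MvPolynomial.eval p F = 0
  dec : ∃ (R : E⟦X⟧) (ρ : M⟦X⟧), Z = R + PowerSeries.map (algebraMap M E) ρ ∧
    R ∈ DenRing (LE L) (KE F p) ∧ (1 - qq L 1 1) * ρ ∈ DenRing L (KE F p) ∧
    gtr (cm S.tot Z) - ρ ∈ DenRing L (KE F p)

theorem qf11 : (1 - qq L 1 1 : M⟦X⟧) * qf L 1 1 = qq L 1 1 := by
  rw [qf, if_neg one_ne_zero]
  linear_combination (qq L 1 1) * geo_mul L (le_refl 1) 1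

theorem map_self' (u : M⟦X⟧) : PowerSeries.map (algebraMap M M) u = u := by
  ext m
  rw [coeff_map]
  rfl

theorem hι' : algebraMap M E (L : M) = (LE L : Eˣ) := rfl

theorem cm_tot_C (c : E) (u : M⟦X⟧) :
    cm S.tot (C c * PowerSeries.map (algebraMap M E) u) = C (S.tot c) * u := by
  rw [cm_C_mul, map_self']

theorem cm_tot_map (u : M⟦X⟧) :
    cm S.tot (PowerSeries.map (algebraMap M E) u) = C ((L : M) - 1) * u := by
  have := cm_tot_C (S := S) 1 u
  rwa [map_one, one_mul, tot_one] at this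

theorem cm_tot_nz {d : ℕ} (hd : 1 ≤ d) (A : E⟦X⟧) :
    cm S.tot (cm (S.nz d) A) = C ((L : M) - 1) * cm S.tot A - cm (S.zr d) A := by
  ext m
  rw [map_sub, coeff_C_mul, coeff_cm, coeff_cm, coeff_cm, coeff_cm]
  linear_combination S.tot_nz d (coeff m A) hd

theorem th_C_mul (d : ℕ) (c : M) (f : M⟦X⟧) : th L d (C c * f) = C c * th L d f := by
  ext m
  rw [coeff_th, coeff_C_mul, coeff_C_mul, coeff_th]
  ring

theorem sc_C_mul (d j : ℕ) (c : M) (f : M⟦X⟧) : sc L d j (C c * f) = C c * sc L d j f := by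
  ext m
  rw [coeff_sc, coeff_C_mul, coeff_C_mul, coeff_sc]
  split_ifs
  · ring
  · ring

theorem good_smooth {σ : Type} (F : MvPolynomial σ ℂ) (p : σ → ℂ)
    (h0 : MvPolynomial.eval p F = 0) (i : σ)
    (h1 : MvPolynomial.eval p (MvPolynomial.pderiv i F) ≠ 0) :
    SGood S F p (qf (LE L) 1 1) where
  ne := by
    rintro rfl
    rw [map_zero, map_zero] at h1
    exact h1 rfl
  zero := h0
  dec := by
    refine ⟨0, qf L 1 1, ?_, Subring.zero_mem _, ?_, ?_⟩
    · rw [zero_add, map_qf _ hι']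
    · rw [qf11]
      exact qq_mem _ _
    · have h2 : gtr (cm S.tot (qf (LE L) 1 1)) - qf L 1 1 = 1 := by
        rw [← map_qf _ (hι' (E := E)), cm_tot_map]
        apply Xcancel
        have h3 := gtr_eq (C ((L : M) - 1) * qf L 1 1)
        have h4 := qf11 (L := L)
        have h5 := ll L
        rw [qq11] at h4
        rw [map_sub, map_one] at h3 ⊢
        set l := (C (L : M) : M⟦X⟧)
        set li := (C ((L⁻¹ : Mˣ) : M) : M⟦X⟧)
        linear_combination h3 - l * h4 - (X * (qf L 1 1 + 1)) * h5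
      rw [h2]
      exact Subring.one_mem _

/-- **The suspension.** -/
theorem good_susp {σ : Type} {d : ℕ} (hd : 2 ≤ d) {G : MvPolynomial σ ℂ} {p : σ → ℂ} {Z : E⟦X⟧}
    (hG : SGood S G p Z) : SGood S (Fd d G) (fun i : Option σ => i.elim 0 p) (sus S d Z) where
  ne := Fd_ne hd
  zero := by
    rw [Fd, map_add, map_pow, MvPolynomial.eval_X, MvPolynomial.eval_rename]
    have h1 : (fun i : Option σ => i.elim 0 p) ∘ some = p := rfl
    rw [h1, hG.zero, add_zero]
    exact zero_pow (by omega)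
  dec := by
    have hd1 : 1 ≤ d := by omega
    obtain ⟨R, ρ, hZ, hR, hσ, hδ⟩ := hG.dec
    have hK := ke_susp (G := G) (p := p) hd
    set K' := KE (Fd d G) (fun i : Option σ => i.elim 0 p) with hK'
    set t := gtr (cm S.tot Z) with ht
    set k := (C ((L : M) - 1) : M⟦X⟧) with hk
    set lam := cm (S.zr d) (sc (LE L) d 0 R) with hlam
    have hlamK : lam ∈ DenRing L K' := cm_mem' _ (sc_mem hd1 0 hK hR)
    have hscZ : sc (LE L) d 0 Z = sc (LE L) d 0 R
        + PowerSeries.map (algebraMap M E) (sc L d 0 ρ) := by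
      rw [hZ, sc_add, map_sc]
    have hzr : cm (S.zr d) (sc (LE L) d 0 Z) = lam + k * sc L d 0 ρ := by
      rw [hscZ, cm_add, cm_map, map_self', S.zr_one d hd1]
    have hnz : cm (S.nz d) (sc (LE L) d 0 Z) = cm (S.nz d) (sc (LE L) d 0 R)
        + (C (algebraMap M E ((L : M) - 1)) - C (S.pc d)) *
          PowerSeries.map (algebraMap M E) (sc L d 0 ρ) := by
      rw [hscZ, cm_add, cm_map, S.nz_one d hd1, map_sub]
    have h11 : (qq L 1 1 : M⟦X⟧) = C ((L⁻¹ : Mˣ) : M) * X := qq11 L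
    refine ⟨C (S.pc d) * PowerSeries.map (algebraMap M E) (sc L d 0 (t - ρ) - 1)
        + th (LE L) d R + cm (S.nz d) (sc (LE L) d 0 R),
      th L d ρ + k * sc L d 0 ρ + cm (S.zr d) (sc (LE L) d 0 Z) * qf L 1 1, ?_, ?_, ?_, ?_⟩
    · have h1 : th (LE L) d Z = th (LE L) d R + PowerSeries.map (algebraMap M E) (th L d ρ) := by
        conv_lhs => rw [hZ]
        rw [th_add, map_th]
      have h2 : PowerSeries.map (algebraMap M E) k = C (algebraMap M E ((L : M) - 1)) := by
        rw [hk, PowerSeries.map_C]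
      rw [sus, ← ht, h1, hnz, sc_sub]
      simp only [map_add, map_sub, map_mul, map_one] at h2 ⊢
      rw [h2]
      ring
    · exact Subring.add_mem _ (Subring.add_mem _ (Subring.mul_mem _ (C_mem _)
        (map_den _ hι' (Subring.sub_mem _ (sc_mem hd1 0 hK hδ) (Subring.one_mem _))))
        (th_mem hd1 hK hR)) (cm_mem _ (sc_mem hd1 0 hK hR))
    · have e1 : (1 - qq L 1 1) * (th L d ρ + k * sc L d 0 ρ
          + cm (S.zr d) (sc (LE L) d 0 Z) * qf L 1 1)
          = th L d ((1 - qq L 1 1) * ρ) + k * sc L d 0 ((1 - qq L 1 1) * ρ)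
            + qq L 1 1 * lam := by
        have h3 : (1 - qq L 1 1) * ρ = ρ - C ((L⁻¹ : Mˣ) : M) * (X * ρ) := by
          rw [h11]
          ring
        have h4 := qf11 (L := L)
        have h5 := ll L
        rw [h3, th_sub, sc_sub, th_C_mul, sc_C_mul, th_X L hd1, sc_X L hd1, hzr, hk]
        rw [h11] at h4 ⊢
        simp only [map_sub, map_one]
        set l := (C (L : M) : M⟦X⟧)
        set li := (C ((L⁻¹ : Mˣ) : M) : M⟦X⟧)
        linear_combination (lam + (l - 1) * sc L d 0 ρ) * h4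
          + (li * X * sc L d (d - 1) ρ) * h5
      rw [e1]
      exact Subring.add_mem _ (Subring.add_mem _ (th_mem hd1 hK hσ)
        (Subring.mul_mem _ (C_mem _) (sc_mem hd1 0 hK hσ))) (Subring.mul_mem _ (qq_mem _ _) hlamK)
    · have e1 : gtr (cm S.tot (sus S d Z)) - (th L d ρ + k * sc L d 0 ρ
          + cm (S.zr d) (sc (LE L) d 0 Z) * qf L 1 1) = th L d (t - ρ) + lam := by
        apply Xcancel
        have h1 := gtr_eq (cm S.tot (sus S d Z))
        have h2 := gtr_eq (cm S.tot Z)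
        rw [← ht] at h2
        have h3 : cm S.tot Z = 1 - t + X * t := by linear_combination h2
        have h4 := qf11 (L := L)
        have h5 := ll L
        have h6 : cm S.tot (sus S d Z) = k * (sc L d 0 t - 1) + th L d (cm S.tot Z)
            + (k * sc L d 0 (cm S.tot Z) - cm (S.zr d) (sc (LE L) d 0 Z))
            + k * (cm (S.zr d) (sc (LE L) d 0 Z) * qf L 1 1) := by
          rw [sus, cm_add, cm_add, cm_add, cm_tot_C, cm_th, cm_tot_nz hd1, cm_sc, cm_tot_map,
            S.tot_pc d hd1, LE_self, ← ht]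
        rw [h3, th_add, th_sub, th_one, sc_add, sc_sub, sc_one L d hd1, th_X L hd1,
          sc_X L hd1, hzr] at h6
        rw [hzr, th_sub]
        rw [h11] at h4
        rw [hk] at h6 ⊢
        set zF := cm S.tot (sus S d Z)
        simp only [map_sub, map_one] at h6 ⊢
        set l := (C (L : M) : M⟦X⟧)
        set li := (C ((L⁻¹ : Mˣ) : M) : M⟦X⟧)
        set q := (qf L 1 1 : M⟦X⟧)
        linear_combination h1 - h6 - ((lam + (l - 1) * sc L d 0 ρ) * l) * h4
          - (X * sc L d (d - 1) t + (lam + (l - 1) * sc L d 0 ρ) * X * (q + 1)) * h5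
      rw [e1]
      exact Subring.add_mem _ (th_mem hd1 hK hδ) hlamK

theorem cm_expand {A B : Type} [CommRing A] [CommRing B] [Algebra M A] [Algebra M B]
    (φ : A →ₗ[M] B) (k : ℕ) (hk : k ≠ 0) (f : A⟦X⟧) :
    cm φ (expand k hk f) = expand k hk (cm φ f) := by
  ext m
  rw [coeff_cm, coeff_expand, coeff_expand]
  split_ifs
  · rw [coeff_cm]
  · exact map_zero _

/-- **The powers.** -/
theorem good_pow {σ : Type} {G : MvPolynomial σ ℂ} {p : σ → ℂ} {Z : E⟦X⟧} (k : ℕ) (hk : 2 ≤ k)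
    (hk0 : k ≠ 0) (hG : SGood S G p Z) : SGood S (G ^ k) p (expand k hk0 (cm (S.pw k) Z)) where
  ne := pow_ne_zero _ hG.ne
  zero := by rw [map_pow, hG.zero, zero_pow hk0]
  dec := by
    obtain ⟨R, ρ, hZ, hR, hσ, hδ⟩ := hG.dec
    set K1 : ℕ → ℕ → Prop := fun a n => KE G p a n ∨ (a = 1 ∧ n = 1) with hK1
    have hK : ∀ a n, 1 ≤ a → 1 ≤ n → K1 a n → KE (G ^ k) p (k * a) n := by
      rintro a n ha hn (h | ⟨rfl, rfl⟩)
      · exact ke_pow hk a n ha hn h
      · rw [mul_one]
        exact ke_pow_one hk hG.ne hG.zero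
    have hρ : ρ ∈ DenRing L K1 := by
      have h1 : ρ = geo L 1 1 * ((1 - qq L 1 1) * ρ) := by
        linear_combination (-ρ) * geo_mul L (le_refl 1) 1
      rw [h1]
      exact Subring.mul_mem _ (geo_mem le_rfl le_rfl (Or.inr ⟨rfl, rfl⟩))
        (den_mono (fun _ _ _ _ h => Or.inl h) hσ)
    have hZ1 : Z ∈ DenRing (LE L) K1 := by
      rw [hZ]
      exact Subring.add_mem _ (den_mono (fun _ _ _ _ h => Or.inl h) hR) (map_den _ hι' hρ)
    have ht : gtr (cm S.tot Z) ∈ DenRing L K1 := by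
      have h1 : gtr (cm S.tot Z) = (gtr (cm S.tot Z) - ρ) + ρ := by ring
      rw [h1]
      exact Subring.add_mem _ (den_mono (fun _ _ _ _ h => Or.inl h) hδ) hρ
    refine ⟨expand k hk0 (cm (S.pw k) Z), 0, by rw [map_zero, add_zero],
      expand_mem k hk0 hK _ (cm_mem _ hZ1), by rw [mul_zero]; exact Subring.zero_mem _, ?_⟩
    rw [sub_zero]
    have e1 : cm S.tot (expand k hk0 (cm (S.pw k) Z)) = expand k hk0 (cm S.tot Z) := by
      rw [cm_expand]
      congr 1
      ext m
      rw [coeff_cm, coeff_cm, coeff_cm, S.tot_pw k _ (by omega)]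
    have e2 : gtr (expand k hk0 (cm S.tot Z))
        = (∑ i ∈ Finset.range k, (X : M⟦X⟧) ^ i) * expand k hk0 (gtr (cm S.tot Z)) := by
      apply Xcancel
      have h1 := congrArg (expand k hk0) (gtr_eq (cm S.tot Z))
      rw [map_mul, map_sub, map_sub, map_one, expand_X] at h1
      have h2 := gtr_eq (expand k hk0 (cm S.tot Z))
      have h3 := mul_neg_geom_sum (X : M⟦X⟧) k
      linear_combination h2 - h1 - (expand k hk0 (gtr (cm S.tot Z))) * h3
    rw [e1, e2]
    exact Subring.mul_mem _ (X_pow_sum_mem k) (expand_mem k hk0 hK _ ht)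

/-- **The zeta functions in the class.** -/
theorem sz_good {σ : Type} {F : MvPolynomial σ ℂ} {p : σ → ℂ} {Z : E⟦X⟧} (hZ : SZ S σ F p Z) :
    SGood S F p Z := by
  induction hZ with
  | smooth F p h0 i h1 => exact good_smooth F p h0 i h1
  | lin h f a ha hF P c h0 Z hZ => exact ⟨hF, h0, base_case hF ha hZ⟩
  | susp d hd G p Z hG ih => exact good_susp hd ih
  | pow k hk hk0 G p Z hG ih => exact good_pow k hk hk0 ih

end Pool.Agent.J4H46.MS
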