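import Pool.Agent.J4H46.MS.WDefs

set_option autoImplicit false

/-! # The local factors -/

namespace Pool.Agent.J4H46.MS

open Pool.Agent.N103 Pool.Agent.W574.SM Pool.Agent.W574.MO

open scoped Polynomial PowerSeries

variable {M : Type} [CommRing M]

/-- The series `L⁻ⁿ Tᵃ / (1 - L⁻ⁿ Tᵃ)`, the local factor of a divisor with the numerical data
`(N, ν) = (a, n)`, `a ≥ 1`, and `1` if `a = 0` (no divisor). -/
noncomputable def qf (L : Mˣ) (a n : ℕ) : M⟦X⟧ :=
  if a = 0 then 1 else qq L a n * geo L a n

/-- The number of the divisors through the point. -/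
def nc (x y : ℕ) (t : Bool) : ℕ :=
  (if x = 0 then 0 else 1) + (if y = 0 then 0 else 1) + (if t then 1 else 0)

/-- The volume of the arcs through a point at which the divisors with the numerical data `(x, n)`,
`(y, m)` and, if `t = true`, `(a, 1)` cross normally:
`(L - 1)^(k - 1) ∏ L^(-ν) T^N / (1 - L^(-ν) T^N)`, `k` the number of these divisors; it has to be
multiplied by the class (over the multiplicative group) of the angular component. -/
noncomputable def lfM (L : Mˣ) (a x n y m : ℕ) (t : Bool) : M⟦X⟧ :=
  PowerSeries.C (((L : M) - 1) ^ (nc x y t - 1)) *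
    (qf L x n * qf L y m * typeFactor (qf L) a t)

/-- The contribution of a point: the angular component is a monomial, with the exponents `x`, `y`
and, if `t = true`, `a`, in the angular components of the equations of the divisors; its class is
`(L - 1)^(k - 1) e(g)`, where `g` is the greatest common divisor of the exponents, and `e g` is the
class of `x ↦ x ^ g`. -/
noncomputable def lfK (L : Mˣ) (a : ℕ) (e : ℕ → M) (x n y m : ℕ) (t : Bool) : M⟦X⟧ :=
  PowerSeries.C (e (Nat.gcd (Nat.gcd x y) (ta a t))) * lfM L a x n y m t

/-- The contribution of the open part `ℂ ∖ S` of an exceptional curve. The angular component is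
`P(v) τ ^ n` up to a change of variables, `v ∈ ℂ ∖ S`, with `n = gcd (N, a)`, if `t = true`, and
`n = N`, if `t = false`; its class is `c n P`, the class of the family of the smooth projective
curves with the equations `P(v) τ ^ n = x`, minus the classes of the points over `S ∪ {∞}`. -/
noncomputable def edK (L : Mˣ) (a : ℕ) (e : ℕ → M) (c : ℕ → ℂ[X] → M) (N ν : ℕ) (t : Bool)
    (P : ℂ[X]) (S : Finset ℂ) : M⟦X⟧ :=
  PowerSeries.C (c (Nat.gcd N (ta a t)) P
    - ∑ z ∈ S, e (Nat.gcd (Nat.gcd N (ta a t)) (P.rootMultiplicity z))
    - e (Nat.gcd (Nat.gcd N (ta a t)) P.natDegree)) * lfM L a N ν 0 1 t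

end Pool.Agent.J4H46.MS
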