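import Pool.Agent.N103.ZDefs
import Pool.Agent.W574.SM.Charts
import Pool.Agent.W574.MO.Alg

set_option autoImplicit false

/-! # The monodromic zeta functions of `h(x) (f₀(x) + ∑ y_j f_j(x)) ^ a`: definitions -/

namespace Pool.Agent.J4H46.MS

open Pool.Agent.N103 Pool.Agent.W574.SM Pool.Agent.W574.MO

open Polynomial

/-- The polynomial `P(v)` on the exceptional curve `E`, with the coordinate `v`, which is the
restriction of `F ∘ π / u ^ (N_E)` (if `t = false`), resp. of `F ∘ π / (u ^ (N_E) H ^ a)` (if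
`t = true`, where `H = 0` is the strict transform of the hypersurface `f₀ + ∑ y_j f_j = 0`, which
contains `E × {0}`), to `E × {0}`. Here `u = 0` is the equation of `E`, and
`F ∘ π = u ^ (N_E) v ^ a₁ h (g₀ + ∑ y_j g_j) ^ a`. -/
noncomputable def edge {κ : Type} (a a₁ : ℕ) (t : Bool) (h : MvPolynomial (Fin 2) ℂ)
    (g : Option κ → MvPolynomial (Fin 2) ℂ) : ℂ[X] :=
  X ^ a₁ * (res0 h * if t then 1 else res0 (g none) ^ a)

/-- `GermW lf ed a h g a₀ n₀ a₁ n₁ Z`: the germ of the polynomial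
`u ^ a₀ v ^ a₁ h (g₀ + ∑ y_j g_j) ^ a` is resolved by blowing up points of the plane, with the same
rules as in `GermZeta` (see there for the rules `unit`, `curveV`, `curveU` and `blowup`, and for the
notations), and `Z` is the sum of the following contributions:

* `lf N₀ ν₀ N₁ ν₁ t` of a point through which there pass at most two curves, with the numerical data
  `(N₀, ν₀)` and `(N₁, ν₁)` (`(N, ν) = (0, 1)` if there is no such curve), and, if `t = true`, the
  strict transform of the hypersurface `f₀ + ∑ y_j f_j = 0`, of multiplicity `a`, transversal to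
  these curves;
* `ed N ν t P S` of the open part of an exceptional curve `E` with the numerical data `(N, ν)` and
  the coordinate `v`: the set of the points `v ∈ ℂ ∖ S`. Here `t` is as before, and `P = P(v)` is
  the polynomial `edge`. -/
inductive GermW {κ R : Type} [AddCommMonoid R] (lf : ℕ → ℕ → ℕ → ℕ → Bool → R)
    (ed : ℕ → ℕ → Bool → ℂ[X] → Finset ℂ → R) (a : ℕ) :
    MvPolynomial (Fin 2) ℂ → (Option κ → MvPolynomial (Fin 2) ℂ) → ℕ → ℕ → ℕ → ℕ → R → Prop
  | unit (h : MvPolynomial (Fin 2) ℂ) (g : Option κ → MvPolynomial (Fin 2) ℂ) (a₀ n₀ a₁ n₁ : ℕ)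
      (hh : MvPolynomial.constantCoeff h ≠ 0) (t : Bool) (ht : HasType g t)
      (hI : a₀ ≠ 0 ∨ a₁ ≠ 0 ∨ t = true) :
      GermW lf ed a h g a₀ n₀ a₁ n₁ (lf a₀ n₀ a₁ n₁ t)
  | curveV (h : MvPolynomial (Fin 2) ℂ) (g : Option κ → MvPolynomial (Fin 2) ℂ) (a₀ n₀ mh mg : ℕ)
      (hm : 1 ≤ mh + a * mg) (q kh : MvPolynomial (Fin 2) ℂ)
      (k : Option κ → MvPolynomial (Fin 2) ℂ) (hh : h = q ^ mh * kh)
      (hg : ∀ j, g j = q ^ mg * k j) (h0 : MvPolynomial.constantCoeff q = 0)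
      (h1 : MvPolynomial.constantCoeff (MvPolynomial.pderiv 1 q) ≠ 0)
      (hkh : MvPolynomial.constantCoeff kh ≠ 0) (t : Bool) (ht : HasType k t) :
      GermW lf ed a h g a₀ n₀ 0 1 (lf a₀ n₀ (mh + a * mg) 1 t)
  | curveU (h : MvPolynomial (Fin 2) ℂ) (g : Option κ → MvPolynomial (Fin 2) ℂ) (a₁ n₁ mh mg : ℕ)
      (hm : 1 ≤ mh + a * mg) (q kh : MvPolynomial (Fin 2) ℂ)
      (k : Option κ → MvPolynomial (Fin 2) ℂ) (hh : h = q ^ mh * kh)
      (hg : ∀ j, g j = q ^ mg * k j) (h0 : MvPolynomial.constantCoeff q = 0)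
      (h1 : MvPolynomial.constantCoeff (MvPolynomial.pderiv 0 q) ≠ 0)
      (hkh : MvPolynomial.constantCoeff kh ≠ 0) (t : Bool) (ht : HasType k t) :
      GermW lf ed a h g 0 1 a₁ n₁ (lf a₁ n₁ (mh + a * mg) 1 t)
  | blowup (h : MvPolynomial (Fin 2) ℂ) (g : Option κ → MvPolynomial (Fin 2) ℂ)
      (a₀ n₀ a₁ n₁ mh mg : ℕ) (hm : 1 ≤ mh + a * mg)
      (hc : ℂ → MvPolynomial (Fin 2) ℂ) (gc : ℂ → Option κ → MvPolynomial (Fin 2) ℂ)
      (hI : MvPolynomial (Fin 2) ℂ) (gI : Option κ → MvPolynomial (Fin 2) ℂ)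
      (hhc : ∀ c, MvPolynomial.aeval (chart c) h = MvPolynomial.X 0 ^ mh * hc c)
      (hgc : ∀ c j, MvPolynomial.aeval (chart c) (g j) = MvPolynomial.X 0 ^ mg * gc c j)
      (hhI : MvPolynomial.aeval chartI h = MvPolynomial.X 1 ^ mh * hI)
      (hgI : ∀ j, MvPolynomial.aeval chartI (g j) = MvPolynomial.X 1 ^ mg * gI j)
      (S : Finset ℂ) (h0S : 0 ∈ S) (t : Bool)
      (hS : ∀ c ∉ S, MvPolynomial.constantCoeff (hc c) ≠ 0 ∧ HasType (gc c) t)
      (Zc : ℂ → R) (ZI : R)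
      (h0 : GermW lf ed a (hc 0) (gc 0) (a₀ + a₁ + (mh + a * mg)) (n₀ + n₁) a₁ n₁ (Zc 0))
      (hcS : ∀ c ∈ S, c ≠ 0 →
        GermW lf ed a (hc c) (gc c) (a₀ + a₁ + (mh + a * mg)) (n₀ + n₁) 0 1 (Zc c))
      (hZI : GermW lf ed a hI gI a₀ n₀ (a₀ + a₁ + (mh + a * mg)) (n₀ + n₁) ZI) :
      GermW lf ed a h g a₀ n₀ a₁ n₁ (ZI + ∑ c ∈ S, Zc c +
        ed (a₀ + a₁ + (mh + a * mg)) (n₀ + n₁) t (edge a a₁ t (hc 0) (gc 0)) S)

/-- the multiplicity of the strict transform -/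
def ta (a : ℕ) (t : Bool) : ℕ := if t then a else 0

open Classical in
/-- the points of the projective line at which the multiplicity of `P` is not divisible by `n` -/
noncomputable def spec (n : ℕ) (P : ℂ[X]) : Finset (Option ℂ) :=
  ((P.roots.toFinset.filter fun z => ¬ n ∣ P.rootMultiplicity z).map Function.Embedding.some) ∪
    (if n ∣ P.natDegree then ∅ else {none})

/-- the greatest common divisor of `n` and of the multiplicities of the zeros of `P` -/
noncomputable def gmul (n : ℕ) (P : ℂ[X]) : ℕ :=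
  Nat.gcd n (P.roots.toFinset.gcd fun z => P.rootMultiplicity z)

end Pool.Agent.J4H46.MS
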