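import Pool.Agent.N103.V.NodeB
import Pool.Agent.J4H46.MS.WDefs

set_option autoImplicit false
set_option linter.unusedSectionVars false
set_option linter.unusedVariables false
set_option linter.unusedSimpArgs false

/-! # The poles of the contribution of a point (with weights): the leaves -/

namespace Pool.Agent.J4H46.MS

open Pool.Agent.W574.SM Pool.Agent.N103
open Pool.Agent.N103.V (InvE leaf_unit leaf_curve typeH_ne curve_ne Ev tfm)

open Polynomial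

section Wt

variable {R : Type} [CommRing R]

/-- the weight, times the factor of the strict transform -/
def wt (e : ℕ → R) (Φ : ℕ → ℕ → R) (a x : ℕ) (t : Bool) : R :=
  e (Nat.gcd x (ta a t)) * typeFactor Φ a t

theorem gcd_eq_of (x a1 a1' a : ℕ) (t t' : Bool)
    (H : ∀ d : ℕ, (if d ∣ a1 then (1 : ℤ) else 0)
        * typeFactor (fun u _ => if d ∣ u then (1 : ℤ) else 0) a t
      = (if d ∣ a1' then (1 : ℤ) else 0)
        * typeFactor (fun u _ => if d ∣ u then (1 : ℤ) else 0) a t') :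
    Nat.gcd (Nat.gcd x a1) (ta a t) = Nat.gcd (Nat.gcd x a1') (ta a t') := by
  have h1 : ∀ (d b : ℕ) (s : Bool), (if d ∣ b then (1 : ℤ) else 0)
        * typeFactor (fun u _ => if d ∣ u then (1 : ℤ) else 0) a s
      = if d ∣ b ∧ d ∣ ta a s then 1 else 0 := by
    intro d b s
    rcases s with _ | _
    · have : typeFactor (fun u _ => if d ∣ u then (1 : ℤ) else 0) a false = 1 := rfl
      rw [this, mul_one]
      simp [ta]
    · have : typeFactor (fun u _ => if d ∣ u then (1 : ℤ) else 0) a true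
        = if d ∣ a then 1 else 0 := rfl
      rw [this]
      by_cases hb : d ∣ b
      · by_cases ha : d ∣ a
        · simp [ta, hb, ha]
        · simp [ta, hb, ha]
      · simp [hb]
  have h2 : ∀ d : ℕ, (d ∣ a1 ∧ d ∣ ta a t) ↔ (d ∣ a1' ∧ d ∣ ta a t') := by
    intro d
    have h3 := H d
    rw [h1, h1] at h3
    by_cases hx : d ∣ a1 ∧ d ∣ ta a t
    · by_cases hy : d ∣ a1' ∧ d ∣ ta a t'
      · exact ⟨fun _ => hy, fun _ => hx⟩
      · rw [if_pos hx, if_neg hy] at h3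
        exact absurd h3 one_ne_zero
    · by_cases hy : d ∣ a1' ∧ d ∣ ta a t'
      · rw [if_neg hx, if_pos hy] at h3
        exact absurd h3.symm one_ne_zero
      · exact ⟨fun h => absurd h hx, fun h => absurd h hy⟩
  rw [Nat.gcd_assoc, Nat.gcd_assoc]
  congr 1
  apply Nat.dvd_antisymm
  · have := (h2 (Nat.gcd a1 (ta a t))).1 ⟨Nat.gcd_dvd_left _ _, Nat.gcd_dvd_right _ _⟩
    exact Nat.dvd_gcd this.1 this.2
  · have := (h2 (Nat.gcd a1' (ta a t'))).2 ⟨Nat.gcd_dvd_left _ _, Nat.gcd_dvd_right _ _⟩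
    exact Nat.dvd_gcd this.1 this.2

variable {e : ℕ → R} {Φ : ℕ → ℕ → R} {D : Subring R} {a : ℕ}

theorem wt_mem (he : ∀ g, e g ∈ D) (t : Bool)
    (h : t = true → (Φ a 1 ∈ D ∨ (a = 1 ∧ e 1 = 0))) (x : ℕ) : wt e Φ a x t ∈ D := by
  rcases t with _ | _
  · exact D.mul_mem (he _) D.one_mem
  · rcases h rfl with h1 | ⟨rfl, h2⟩
    · exact D.mul_mem (he _) h1
    · have : Nat.gcd x (ta 1 true) = 1 := Nat.gcd_one_right x
      rw [wt, this, h2, zero_mul]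
      exact D.zero_mem

theorem wt_mul (x y y' n n' : ℕ) (t t' : Bool) (a : ℕ)
    (H : ∀ d : ℕ, (if d ∣ y then (1 : ℤ) else 0)
        * typeFactor (fun u _ => if d ∣ u then (1 : ℤ) else 0) a t
      = (if d ∣ y' then (1 : ℤ) else 0)
        * typeFactor (fun u _ => if d ∣ u then (1 : ℤ) else 0) a t')
    (h : Φ y n * typeFactor Φ a t = Φ y' n' * typeFactor Φ a t') :
    Φ y n * wt e Φ a (Nat.gcd x y) t = Φ y' n' * wt e Φ a (Nat.gcd x y') t' := by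
  rw [wt, wt, gcd_eq_of x y y' a t t' H]
  linear_combination (e (Nat.gcd (Nat.gcd x y') (ta a t'))) * h

end Wt

section Node

variable {κ : Type} [Fintype κ] [DecidableEq κ]

variable {h : MP} {f : Option κ → MP} {a : ℕ} {c : κ → ℂ} {Pt : Fin 2 → ℂ}

variable {R : Type} [CommRing R]

variable {H : MvPolynomial (Fin 2 ⊕ κ) ℂ} {s0 : ℂ} {D : Subring R} {Φ : ℕ → ℕ → R} {l : R}
  {e : ℕ → R}

/-- the conclusion at a node -/
def GoodW (a : ℕ) (D : Subring R) (s0 : ℂ) (Φ : ℕ → ℕ → R) (e : ℕ → R) (h' : MP)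
    (g : Option κ → MP) (a0 n0 a1 n1 : ℕ) (Z : R) : Prop :=
  ∃ c0 ∈ D, ∃ c1 ∈ D,
    ((n0 : ℂ) + a0 * s0 = 0 → ∀ μ, Ord0 (fam (t0 g) a h' g) μ →
      c0 = Φ (a1 + μ) n1 * wt e Φ a (Nat.gcd a0 (a1 + μ)) (t0 g)) ∧
    ((n1 : ℂ) + a1 * s0 = 0 → ∀ μ, Ord1 (fam (t1 g) a h' g) μ →
      c1 = Φ (a0 + μ) n0 * wt e Φ a (Nat.gcd a1 (a0 + μ)) (t1 g)) ∧
    Z - c0 * Φ a0 n0 - c1 * Φ a1 n1 ∈ D

/-- the contribution of a leaf -/
def lfW (a : ℕ) (Φ : ℕ → ℕ → R) (e : ℕ → R) (x n y m : ℕ) (t : Bool) : R :=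
  wt e Φ a (Nat.gcd x y) t * Φ x n * Φ y m

theorem mem_of_multW {N : ℕ} (hN : 1 ≤ N) (hD : ZData D s0 Φ l)
    (hS : s0 ≠ -1 ∨ e 1 = 0) (h : 2 ≤ N → s0 = -1 / (N : ℂ) → False) :
    Φ N 1 ∈ D ∨ (N = 1 ∧ e 1 = 0) := by
  by_cases h1 : (1 : ℂ) + N * s0 = 0
  · have hNc : (N : ℂ) ≠ 0 := Nat.cast_ne_zero.2 (by omega)
    have h2 : s0 = -1 / (N : ℂ) := by
      rw [eq_div_iff hNc]
      linear_combination h1
    by_cases h3 : 2 ≤ N
    · exact (h h3 h2).elim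
    · have h4 : N = 1 := by omega
      rcases hS with hS | hS
      · exfalso
        apply hS
        rw [h2, h4]
        norm_num
      · exact Or.inr ⟨h4, hS⟩
  · exact Or.inl (hD.reg N 1 le_rfl (by rw [Nat.cast_one]; exact h1))

/-- the type at a point -/
theorem type_W (hF : FF h f a ≠ 0) (hH : MvPolynomial.eval (Sum.elim Pt c) H ≠ 0) (ha : 1 ≤ a)
    (hE : Ev H (FF h f a) s0) (hD : ZData D s0 Φ l)
    (hS : s0 ≠ -1 ∨ e 1 = 0)
    {h' : MP} {g : Option κ → MP} {a0 n0 a1 n1 : ℕ}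
    (G : GeomD h f a c Pt h' g a0 n0 a1 n1) (x : MP) (hx : x ≠ 0) (hh' : h' ≠ 0)
    (k : Option κ → MP) (hg : ∀ j, g j = x * k j) {t : Bool} (ht : HasType k t) :
    t = true → (Φ a 1 ∈ D ∨ (a = 1 ∧ e 1 = 0)) := by
  rintro rfl
  have h1 : MvPolynomial.constantCoeff (k none) = 0 ∧ ∃ j,
      MvPolynomial.constantCoeff (k (some j)) ≠ 0 := ht
  obtain ⟨h2, j, hj⟩ := h1
  exact mem_of_multW ha hD hS fun h3 h4 =>
    typeH_ne hF hH h3 (by rw [← h4]; exact hE) G x hx hh' k hg h2 j hj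

/-- a curve of multiplicity `N` -/
theorem curve_wt_mem (he : ∀ g, e g ∈ D) {N : ℕ} (hN : Φ N 1 ∈ D ∨ (N = 1 ∧ e 1 = 0)) (x : ℕ)
    (t : Bool) (ht : t = true → (Φ a 1 ∈ D ∨ (a = 1 ∧ e 1 = 0))) :
    Φ N 1 * wt e Φ a (Nat.gcd x N) t ∈ D := by
  rcases hN with h1 | ⟨rfl, h2⟩
  · exact D.mul_mem h1 (wt_mem he t ht _)
  · have : Nat.gcd (Nat.gcd x 1) (ta a t) = 1 := by
      rw [Nat.gcd_one_right, Nat.gcd_one_left]
    rw [wt, this, h2, zero_mul, mul_zero]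
    exact D.zero_mem

/-- the leaf `unit` -/
theorem good_unitW (hF : FF h f a ≠ 0)
    (hH : MvPolynomial.eval (Sum.elim Pt c) H ≠ 0) (ha : 1 ≤ a) (hE : Ev H (FF h f a) s0)
    (hD : ZData D s0 Φ l) (he : ∀ g, e g ∈ D) (hS : s0 ≠ -1 ∨ e 1 = 0) {h' : MP}
    {g : Option κ → MP} {a0 n0 a1 n1 : ℕ}
    (inv : InvE h f a c Pt (Φ a 1 ∈ D ∨ (a = 1 ∧ e 1 = 0)) s0 h' g a0 n0 a1 n1)
    (hh : MvPolynomial.constantCoeff h' ≠ 0) (t : Bool) (ht : HasType g t) :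
    GoodW a D s0 Φ e h' g a0 n0 a1 n1 (lfW a Φ e a0 n0 a1 n1 t) := by
  obtain ⟨G⟩ := inv.geom
  have hh' : h' ≠ 0 := fun h => hh (by rw [h, map_zero])
  have htf := type_W (e := e) hF hH ha hE hD hS G 1 one_ne_zero hh' g (fun j => (one_mul _).symm) ht
  have hwt := wt_mem (Φ := Φ) (a := a) he t htf
  by_cases hA0 : (n0 : ℂ) + a0 * s0 = 0
  · obtain ⟨hA1, hc⟩ := leaf_unit hF hH ha G inv.hn0 inv.hn1 inv.hz0 inv.hz1 inv.hJ2' s0 hE
      inv.hH0 hA0 hh t ht Φ hD.one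
    have hd : ∀ d : ℕ, ∀ μ, Ord0 (fam (t0 g) a h' g) μ → (if d ∣ a1 then (1 : ℤ) else 0)
        * typeFactor (fun u _ => if d ∣ u then (1 : ℤ) else 0) a t
      = (if d ∣ a1 + μ then (1 : ℤ) else 0)
        * typeFactor (fun u _ => if d ∣ u then (1 : ℤ) else 0) a (t0 g) := fun d =>
      (leaf_unit hF hH ha G inv.hn0 inv.hn1 inv.hz0 inv.hz1 inv.hJ2' s0 hE
        inv.hH0 hA0 hh t ht (fun u _ => if d ∣ u then (1 : ℤ) else 0) (if_pos (dvd_zero d))).2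
    refine ⟨Φ a1 n1 * wt e Φ a (Nat.gcd a0 a1) t,
      D.mul_mem (hD.reg a1 n1 inv.hn1 hA1) (hwt _), 0, D.zero_mem,
      fun _ μ hμ => wt_mul a0 a1 (a1 + μ) n1 n1 t (t0 g) a (fun d => hd d μ hμ) (hc μ hμ),
      fun h => absurd h hA1, ?_⟩
    have : lfW a Φ e a0 n0 a1 n1 t - Φ a1 n1 * wt e Φ a (Nat.gcd a0 a1) t * Φ a0 n0
        - 0 * Φ a1 n1 = 0 := by
      rw [lfW]
      ring
    rw [this]
    exact D.zero_mem
  · by_cases hA1 : (n1 : ℂ) + a1 * s0 = 0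
    · have hswo : (n1 : ℂ) + a1 * s0 = 0 → ∀ μ, Ord0 (fam (t0 fun j => sw (g j)) a (sw h')
          (fun j => sw (g j))) μ → (n0 : ℂ) + s0 * ((a0 + μ : ℕ) : ℂ) ≠ 0 := fun hA μ hμ => by
        rw [t0_sw] at hμ
        exact inv.hH1 hA μ (Ord_sw' hμ)
      obtain ⟨_, hc⟩ := leaf_unit hF hH ha G.swap inv.hn1 inv.hn0 inv.hz1 inv.hz0 inv.hJ2 s0
        hE hswo hA1 (by rwa [cc_sw]) t (HasType_sw ht) Φ hD.one
      have hd : ∀ d : ℕ, ∀ μ, Ord1 (fam (t1 g) a h' g) μ → (if d ∣ a0 then (1 : ℤ) else 0)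
          * typeFactor (fun u _ => if d ∣ u then (1 : ℤ) else 0) a t
        = (if d ∣ a0 + μ then (1 : ℤ) else 0)
          * typeFactor (fun u _ => if d ∣ u then (1 : ℤ) else 0) a (t1 g) := by
        intro d μ hμ
        have h1 := (leaf_unit hF hH ha G.swap inv.hn1 inv.hn0 inv.hz1 inv.hz0 inv.hJ2 s0
          hE hswo hA1 (by rwa [cc_sw]) t (HasType_sw ht)
          (fun u _ => if d ∣ u then (1 : ℤ) else 0) (if_pos (dvd_zero d))).2 μ
            (by rw [t0_sw]; exact Ord_sw hμ)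
        rw [t0_sw] at h1
        exact h1
      refine ⟨0, D.zero_mem, Φ a0 n0 * wt e Φ a (Nat.gcd a1 a0) t,
        D.mul_mem (hD.reg a0 n0 inv.hn0 hA0) (hwt _), fun h => absurd h hA0, fun _ μ hμ => ?_, ?_⟩
      · have h1 := hc μ (by rw [t0_sw]; exact Ord_sw hμ)
        rw [t0_sw] at h1
        exact wt_mul a1 a0 (a0 + μ) n0 n0 t (t1 g) a (fun d => hd d μ hμ) h1
      · have : lfW a Φ e a0 n0 a1 n1 t - 0 * Φ a0 n0
            - Φ a0 n0 * wt e Φ a (Nat.gcd a1 a0) t * Φ a1 n1 = 0 := by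
          rw [lfW, Nat.gcd_comm a1 a0]
          ring
        rw [this]
        exact D.zero_mem
    · refine ⟨0, D.zero_mem, 0, D.zero_mem, fun h => absurd h hA0, fun h => absurd h hA1, ?_⟩
      rw [zero_mul, zero_mul, sub_zero, sub_zero]
      exact D.mul_mem (D.mul_mem (hwt _) (hD.reg a0 n0 inv.hn0 hA0)) (hD.reg a1 n1 inv.hn1 hA1)

/-- the leaf `curveV` -/
theorem good_curveVW (hF : FF h f a ≠ 0)
    (hH : MvPolynomial.eval (Sum.elim Pt c) H ≠ 0) (ha : 1 ≤ a) (hE : Ev H (FF h f a) s0)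
    (hD : ZData D s0 Φ l) (he : ∀ g, e g ∈ D) (hS : s0 ≠ -1 ∨ e 1 = 0) {h' : MP}
    {g : Option κ → MP} {a0 n0 : ℕ}
    (inv : InvE h f a c Pt (Φ a 1 ∈ D ∨ (a = 1 ∧ e 1 = 0)) s0 h' g a0 n0 0 1) (mh mg : ℕ)
    (hm : 1 ≤ mh + a * mg) (q kh : MP)
    (k : Option κ → MP) (hh : h' = q ^ mh * kh) (hg : ∀ j, g j = q ^ mg * k j)
    (h0 : MvPolynomial.constantCoeff q = 0)
    (h1 : MvPolynomial.constantCoeff (MvPolynomial.pderiv 1 q) ≠ 0)
    (hkh : MvPolynomial.constantCoeff kh ≠ 0) (t : Bool) (ht : HasType k t) :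
    GoodW a D s0 Φ e h' g a0 n0 0 1 (lfW a Φ e a0 n0 (mh + a * mg) 1 t) := by
  obtain ⟨G⟩ := inv.geom
  have hq : q ≠ 0 := by
    rintro rfl
    rw [map_zero, map_zero] at h1
    exact h1 rfl
  have hkh0 : kh ≠ 0 := fun h => hkh (by rw [h, map_zero])
  have hh' : h' ≠ 0 := by rw [hh]; exact mul_ne_zero (pow_ne_zero _ hq) hkh0
  have htf := type_W (e := e) hF hH ha hE hD hS G (q ^ mg) (pow_ne_zero _ hq) hh' k hg ht
  obtain ⟨j, hj⟩ := HasType_some ht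
  have hfm : Φ (mh + a * mg) 1 ∈ D ∨ (mh + a * mg = 1 ∧ e 1 = 0) :=
    mem_of_multW hm hD hS fun h3 h4 =>
      curve_ne hF hH G mh mg h3 (by rw [← h4]; exact hE) q kh k hh hg h0 h1 hkh j hj
  have hcw := curve_wt_mem (a := a) he hfm a0 t htf
  have hA1 : ((1 : ℕ) : ℂ) + ((0 : ℕ) : ℂ) * s0 ≠ 0 := by simp
  by_cases hA0 : (n0 : ℂ) + a0 * s0 = 0
  · have hc := leaf_curve hF hH ha G inv.hn0 inv.hz0 s0 hE hA0 mh mg hm q kh k hh hg h0 h1 hkh
      t ht Φ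
    have hd := fun d : ℕ => leaf_curve hF hH ha G inv.hn0 inv.hz0 s0 hE hA0 mh mg hm q kh k hh hg
      h0 h1 hkh t ht (fun u _ => if d ∣ u then (1 : ℤ) else 0)
    refine ⟨Φ (mh + a * mg) 1 * wt e Φ a (Nat.gcd a0 (mh + a * mg)) t, hcw, 0, D.zero_mem,
      fun _ μ hμ => wt_mul a0 _ (0 + μ) 1 1 t (t0 g) a (fun d => hd d μ hμ) (hc μ hμ),
      fun h => absurd h hA1, ?_⟩
    have : lfW a Φ e a0 n0 (mh + a * mg) 1 t
        - Φ (mh + a * mg) 1 * wt e Φ a (Nat.gcd a0 (mh + a * mg)) t * Φ a0 n0 - 0 * Φ 0 1 = 0 := by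
      rw [lfW]
      ring
    rw [this]
    exact D.zero_mem
  · refine ⟨0, D.zero_mem, 0, D.zero_mem, fun h => absurd h hA0, fun h => absurd h hA1, ?_⟩
    rw [zero_mul, zero_mul, sub_zero, sub_zero]
    have : lfW a Φ e a0 n0 (mh + a * mg) 1 t
        = Φ (mh + a * mg) 1 * wt e Φ a (Nat.gcd a0 (mh + a * mg)) t * Φ a0 n0 := by
      rw [lfW]
      ring
    rw [this]
    exact D.mul_mem hcw (hD.reg a0 n0 inv.hn0 hA0)

/-- the leaf `curveU` -/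
theorem good_curveUW (hF : FF h f a ≠ 0)
    (hH : MvPolynomial.eval (Sum.elim Pt c) H ≠ 0) (ha : 1 ≤ a) (hE : Ev H (FF h f a) s0)
    (hD : ZData D s0 Φ l) (he : ∀ g, e g ∈ D) (hS : s0 ≠ -1 ∨ e 1 = 0) {h' : MP}
    {g : Option κ → MP} {a1 n1 : ℕ}
    (inv : InvE h f a c Pt (Φ a 1 ∈ D ∨ (a = 1 ∧ e 1 = 0)) s0 h' g 0 1 a1 n1) (mh mg : ℕ)
    (hm : 1 ≤ mh + a * mg) (q kh : MP)
    (k : Option κ → MP) (hh : h' = q ^ mh * kh) (hg : ∀ j, g j = q ^ mg * k j)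
    (h0 : MvPolynomial.constantCoeff q = 0)
    (h1 : MvPolynomial.constantCoeff (MvPolynomial.pderiv 0 q) ≠ 0)
    (hkh : MvPolynomial.constantCoeff kh ≠ 0) (t : Bool) (ht : HasType k t) :
    GoodW a D s0 Φ e h' g 0 1 a1 n1 (lfW a Φ e a1 n1 (mh + a * mg) 1 t) := by
  obtain ⟨G⟩ := inv.geom
  have hq : q ≠ 0 := by
    rintro rfl
    rw [map_zero, map_zero] at h1
    exact h1 rfl
  have hkh0 : kh ≠ 0 := fun h => hkh (by rw [h, map_zero])
  have hh' : h' ≠ 0 := by rw [hh]; exact mul_ne_zero (pow_ne_zero _ hq) hkh0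
  have htf := type_W (e := e) hF hH ha hE hD hS G (q ^ mg) (pow_ne_zero _ hq) hh' k hg ht
  have hh2 : sw h' = sw q ^ mh * sw kh := by rw [hh, map_mul, map_pow]
  have hg2 : ∀ j, sw (g j) = sw q ^ mg * sw (k j) := fun j => by rw [hg, map_mul, map_pow]
  have h02 : MvPolynomial.constantCoeff (sw q) = 0 := by rwa [cc_sw]
  have h12 : MvPolynomial.constantCoeff (MvPolynomial.pderiv 1 (sw q)) ≠ 0 := by
    rw [(pderiv_sw q).2, cc_sw]
    exact h1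
  have hkh2 : MvPolynomial.constantCoeff (sw kh) ≠ 0 := by rwa [cc_sw]
  have ht2 := HasType_sw ht
  obtain ⟨j, hj⟩ := HasType_some ht2
  have hfm : Φ (mh + a * mg) 1 ∈ D ∨ (mh + a * mg = 1 ∧ e 1 = 0) :=
    mem_of_multW hm hD hS fun h3 h4 =>
      curve_ne hF hH G.swap mh mg h3 (by rw [← h4]; exact hE) (sw q) (sw kh)
        (fun j => sw (k j)) hh2 hg2 h02 h12 hkh2 j hj
  have hcw := curve_wt_mem (a := a) he hfm a1 t htf
  have hA0 : ((1 : ℕ) : ℂ) + ((0 : ℕ) : ℂ) * s0 ≠ 0 := by simp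
  by_cases hA1 : (n1 : ℂ) + a1 * s0 = 0
  · have hc := leaf_curve hF hH ha G.swap inv.hn1 inv.hz1 s0 hE hA1 mh mg hm (sw q) (sw kh)
      (fun j => sw (k j)) hh2 hg2 h02 h12 hkh2 t ht2 Φ
    have hd : ∀ d : ℕ, ∀ μ, Ord1 (fam (t1 g) a h' g) μ → (if d ∣ mh + a * mg then (1 : ℤ) else 0)
          * typeFactor (fun u _ => if d ∣ u then (1 : ℤ) else 0) a t
        = (if d ∣ 0 + μ then (1 : ℤ) else 0)
          * typeFactor (fun u _ => if d ∣ u then (1 : ℤ) else 0) a (t1 g) := by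
      intro d μ hμ
      have h3 := leaf_curve hF hH ha G.swap inv.hn1 inv.hz1 s0 hE hA1 mh mg hm (sw q) (sw kh)
        (fun j => sw (k j)) hh2 hg2 h02 h12 hkh2 t ht2 (fun u _ => if d ∣ u then (1 : ℤ) else 0) μ
        (by rw [t0_sw]; exact Ord_sw hμ)
      rw [t0_sw] at h3
      exact h3
    refine ⟨0, D.zero_mem, Φ (mh + a * mg) 1 * wt e Φ a (Nat.gcd a1 (mh + a * mg)) t, hcw,
      fun h => absurd h hA0, fun _ μ hμ => ?_, ?_⟩
    · have h3 := hc μ (by rw [t0_sw]; exact Ord_sw hμ)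
      rw [t0_sw] at h3
      exact wt_mul a1 _ (0 + μ) 1 1 t (t1 g) a (fun d => hd d μ hμ) h3
    · have : lfW a Φ e a1 n1 (mh + a * mg) 1 t - 0 * Φ 0 1
        - Φ (mh + a * mg) 1 * wt e Φ a (Nat.gcd a1 (mh + a * mg)) t * Φ a1 n1 = 0 := by
        rw [lfW]
        ring
      rw [this]
      exact D.zero_mem
  · refine ⟨0, D.zero_mem, 0, D.zero_mem, fun h => absurd h hA0, fun h => absurd h hA1, ?_⟩
    rw [zero_mul, zero_mul, sub_zero, sub_zero]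
    have : lfW a Φ e a1 n1 (mh + a * mg) 1 t
        = Φ (mh + a * mg) 1 * wt e Φ a (Nat.gcd a1 (mh + a * mg)) t * Φ a1 n1 := by
      rw [lfW]
      ring
    rw [this]
    exact D.mul_mem hcw (hD.reg a1 n1 inv.hn1 hA1)

end Node

end Pool.Agent.J4H46.MS
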