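import Pool.Agent.J4H46.MS.KDefs
import Pool.Agent.N103.V.Susp
import Mathlib.RingTheory.PowerSeries.Expand

set_option autoImplicit false

/-! # The monodromic zeta functions of iterated suspensions

For a polynomial `G` in `d` variables with `G(p) = 0`, let `X_m` be the space of the arcs `φ` at `p`,
modulo `t^(m+1)`, with `G(φ) = c tᵐ + ⋯`, `c ≠ 0`. The angular component `φ ↦ c` is a morphism from
`X_m` to the multiplicative group `𝔾`. The local monodromic motivic zeta function of `G`,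
normalized such that all the arcs at `p` have the volume `1`, is the series
`∑_{m ≥ 1} [X_m → 𝔾] L^(- m d) Tᵐ` with coefficients in the Grothendieck ring of varieties over `𝔾`,
localized at `L`. The class of the total space gives the usual motivic zeta function. -/

namespace Pool.Agent.J4H46.MS

open Pool.Agent.N103 Pool.Agent.W574.SM Pool.Agent.W574.MO
open Pool.Agent.N103.V (Fd)

open scoped Polynomial PowerSeries
open PowerSeries (C coeff X)

/-- Relative classes over the multiplicative group `𝔾`. The main example is `M = K₀(Var_ℂ)[1/L]`,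
`E = K₀(Var_𝔾)[1/L]`, the Grothendieck ring of the varieties `A → 𝔾` over `𝔾`, with the fibre
product over `𝔾`, which is an algebra over `M` by `[B] [A → 𝔾] = [B × A → 𝔾]`. The unit element is
the class of the identity of `𝔾`. -/
structure MonSys (M E : Type) [CommRing M] [CommRing E] [Algebra M E] (L : Mˣ) where
  /-- the class of `𝔾 → 𝔾`, `x ↦ x ^ n` -/
  pc : ℕ → E
  /-- the class of the family of the smooth projective curves with the equations `P(v) τ ^ n = x`,
  `x ∈ 𝔾`: the class of `(v, τ) ↦ P(v) τ ^ n`, `P(v) ≠ 0`, `τ ≠ 0`, plus the sum of the `pc g` for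
  `g = gcd (n, m)`, where `m` runs through the multiplicities of the zeros of `P` and `m = deg P` -/
  cl : ℕ → ℂ[X] → E
  /-- the class of the total space `A` of `A → 𝔾` -/
  tot : E →ₗ[M] M
  /-- the class of `(z, x) ↦ z ^ d + c(x)` on `{(z, x) ∈ 𝔾 × A | z ^ d + c(x) ≠ 0}`, for `c : A → 𝔾` -/
  nz : ℕ → E →ₗ[M] E
  /-- the class of `{(z, x) ∈ 𝔾 × A | z ^ d + c(x) = 0}`, for `c : A → 𝔾` -/
  zr : ℕ → E →ₗ[M] M
  /-- the class of `x ↦ c(x) ^ k`, for `c : A → 𝔾` -/
  pw : ℕ → E →ₗ[M] E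
  pc_one : pc 1 = 1
  tot_pc : ∀ n, 1 ≤ n → tot (pc n) = (L : M) - 1
  tot_cl : ∀ n P, 1 ≤ n → P ≠ 0 → tot (cl n P) = ((L : M) + 1) * ((L : M) - 1)
  /-- if at most two points of the projective line are branch points, the curves are unions of
  projective lines -/
  cl_two : ∀ n P, 1 ≤ n → P ≠ 0 → (spec n P).card ≤ 2 →
    cl n P = algebraMap M E ((L : M) + 1) * pc (gmul n P)
  nz_one : ∀ d, 1 ≤ d → nz d 1 = algebraMap M E ((L : M) - 1) - pc d
  zr_one : ∀ d, 1 ≤ d → zr d 1 = (L : M) - 1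
  tot_nz : ∀ d x, 1 ≤ d → tot (nz d x) + zr d x = ((L : M) - 1) * tot x
  tot_pw : ∀ k x, 1 ≤ k → tot (pw k x) = tot x

section Ops

variable {M : Type} [CommRing M]

/-- `∑_m L^(-⌊m/d⌋) f_m Tᵐ` for `f = ∑ f_m Tᵐ` -/
noncomputable def th (L : Mˣ) (d : ℕ) (f : M⟦X⟧) : M⟦X⟧ :=
  PowerSeries.mk fun m => ((L⁻¹ ^ (m / d) : Mˣ) : M) * coeff m f

/-- `∑_{m ≡ j mod d} L^(-⌊m/d⌋) f_m Tᵐ` for `f = ∑ f_m Tᵐ` (`0 ≤ j < d`) -/
noncomputable def sc (L : Mˣ) (d j : ℕ) (f : M⟦X⟧) : M⟦X⟧ :=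
  PowerSeries.mk fun m => if m % d = j then ((L⁻¹ ^ (m / d) : Mˣ) : M) * coeff m f else 0

/-- `∑_m (1 - ∑_{l ≤ m} a_l) Tᵐ` for `Z = ∑ a_l Tˡ`: the series of the volumes of the sets `ord > m`. -/
noncomputable def gtr (Z : M⟦X⟧) : M⟦X⟧ :=
  PowerSeries.mk fun m => 1 - ∑ l ∈ Finset.range (m + 1), coeff l Z

/-- a linear map, applied to the coefficients -/
noncomputable def cm {A B : Type} [CommRing A] [CommRing B] [Algebra M A] [Algebra M B]
    (φ : A →ₗ[M] B) (f : A⟦X⟧) : B⟦X⟧ := PowerSeries.mk fun m => φ (coeff m f)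

end Ops

section Zeta

variable {M E : Type} [CommRing M] [CommRing E] [Algebra M E] (L : Mˣ)

/-- the unit `L` of the ring `E` -/
noncomputable def LE : Eˣ := Units.map (algebraMap M E).toMonoidHom L

variable {L}

/-- **The monodromic zeta function of `z ^ d + G`** from the one of `G`, `𝓩 = ∑ a_m Tᵐ`. The parts
come from the following arcs `(z, φ)`.

* `pc d ∑_{k ≥ 1} L⁻ᵏ (1 - ∑_{l ≤ dk} tot a_l) T^(dk)`: `d ord z = d k < ord G(φ)`; the angular
  component is `z₀ ^ d`, and the volume of `ord z = k` is `L⁻ᵏ` times the class of `z₀ ∈ 𝔾`;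
* `th 𝓩 = ∑_m L^(-⌊m/d⌋) a_m Tᵐ`: `d ord z > ord G(φ) = m`;
* `nz d (sc 𝓩)`: `d ord z = ord G(φ) = d k`, and `z₀ ^ d + c ≠ 0` for the angular components `z₀`, `c`
  of `z` and `G(φ)`;
* `zr d (sc 𝓩) L⁻¹ T / (1 - L⁻¹ T)`: `d ord z = ord G(φ) = d k` and `z₀ ^ d + c = 0`; here
  `(z ^ d + G(φ)) / t^(dk)` is uniformly distributed among the power series in `t` without constant
  term. -/
noncomputable def sus (S : MonSys M E L) (d : ℕ) (Z : E⟦X⟧) : E⟦X⟧ :=
  C (S.pc d) * PowerSeries.map (algebraMap M E) (sc L d 0 (gtr (cm S.tot Z)) - 1)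
    + th (LE L) d Z + cm (S.nz d) (sc (LE L) d 0 Z)
    + PowerSeries.map (algebraMap M E) (cm (S.zr d) (sc (LE L) d 0 Z) * qf L 1 1)

/-- `SZ S σ F p 𝓩`: the polynomial `F` in the variables `σ` is in the least class of polynomials with
a point which is closed under the following rules, and `𝓩` is its local monodromic motivic zeta
function at `p`, normalized such that all the arcs at `p` have the volume `1`.

* `smooth`: `F = 0` is smooth at `p`: `𝓩 = ∑_{m ≥ 1} L^(-m) Tᵐ` (times the class of the identity);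
* `lin`: `F = h(x) (f₀(x) + ∑ y_j f_j(x)) ^ a`, `x = (x₁, x₂)`, and the zeta function is computed by
  blowing up points of the plane (`GermW`, `lfK`, `edK`); in particular, `F` may be any polynomial
  in two variables;
* `susp`: `F = z ^ d + G`, and `z = 0` at the point (`Fd d G = X none ^ d + rename some G`);
* `pow`: `F = G ^ k`, `k ≥ 2`: the order is multiplied by `k`, and the angular component is
  the `k`-th power. -/
inductive SZ (S : MonSys M E L) :
    (σ : Type) → MvPolynomial σ ℂ → (σ → ℂ) → E⟦X⟧ → Prop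
  | smooth {σ : Type} (F : MvPolynomial σ ℂ) (p : σ → ℂ) (h0 : MvPolynomial.eval p F = 0) (i : σ)
      (h1 : MvPolynomial.eval p (MvPolynomial.pderiv i F) ≠ 0) :
      SZ S σ F p (qf (LE L) 1 1)
  | lin {κ : Type} [Fintype κ] [DecidableEq κ] (h : MvPolynomial (Fin 2) ℂ)
      (f : Option κ → MvPolynomial (Fin 2) ℂ) (a : ℕ) (ha : 1 ≤ a) (hF : FF h f a ≠ 0)
      (P : Fin 2 → ℂ) (c : κ → ℂ) (h0 : MvPolynomial.eval (Sum.elim P c) (FF h f a) = 0)
      (Z : E⟦X⟧)
      (hZ : GermW (lfK (LE L) a S.pc) (edK (LE L) a S.pc S.cl) a (translate P h)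
        (fun j => translate P (fc c f j)) 0 1 0 1 Z) :
      SZ S (Fin 2 ⊕ κ) (FF h f a) (Sum.elim P c) Z
  | susp {σ : Type} (d : ℕ) (hd : 2 ≤ d) (G : MvPolynomial σ ℂ) (p : σ → ℂ) (Z : E⟦X⟧)
      (hG : SZ S σ G p Z) :
      SZ S (Option σ) (Fd d G) (fun i => i.elim 0 p) (sus S d Z)
  | pow {σ : Type} (k : ℕ) (hk : 2 ≤ k) (hk0 : k ≠ 0) (G : MvPolynomial σ ℂ) (p : σ → ℂ)
      (Z : E⟦X⟧) (hG : SZ S σ G p Z) :
      SZ S σ (G ^ k) p (PowerSeries.expand k hk0 (cm (S.pw k) Z))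

end Zeta

end Pool.Agent.J4H46.MS
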